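import Pool.Agent.Helper5_Dich.Fin

/-!
# A positive answer for an extension of any theory, or a general speed-up

All definitions used by the statement are in `Pool.Agent.Helper31_Con.Defs`.
-/

namespace Pool.Agent.Helper81_P.AnswerOrSpeedup

open Helper31Con

/-- There is a formula defining finite consistency in `ℕ`. Let `con` be any such formula, let `u`
be a formula with free variables among `x_0`, `x_1` and `D` a finite set of true sentences that
refutes every false instance `u(t, n)`. Then there is a finite set `B` of true sentences,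
including Robinson arithmetic, such that every finite set `T` of sentences that includes `B`
satisfies at least one of the following.

(a) Some `A = T + ξ` has `A + Con_A` consistent and proves `Con_{A + Con_A}(n)` with at most
`n ^ c + c` symbols, for all `n`.

(b) There are `m_j ≥ j`, sentences `ξ_j` and `N_j` such that `S_j = A_j + Con_{A_j}`, where
`A_j = T + ξ_j`, has no refutation with at most `N_j` symbols, and such that for every `k` and every
`t` for which `T` proves the sentences `u(t, n)` with `2 ^ O(n + 1)` symbols, for all large `j`: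
`N_j ^ k ≤ 2 ^ m_j` and some `L` with `L ^ k ≤ 2 ^ m_j` has `T + Con_T + Con_{S_j}(N_j)` proving
`u(t, n)` with at most `L` symbols for all `n ≤ k m_j`. -/
theorem result :
    (∃ con : Fm, IsCon con) ∧
    ∀ con : Fm, IsCon con → ∀ (u : Fm) (D : List Fm),
      (∀ i, u.Free i → i < 2) → (∀ φ ∈ D, TrueS φ) →
      (∀ t n, (∀ e, ¬ ((u.sub 0 (.num t)).sub 1 (.num n)).Sat e) →
        ∃ k, Prov D k (.neg ((u.sub 0 (.num t)).sub 1 (.num n)))) →
      ∃ B : List Fm, (∀ φ ∈ B, TrueS φ) ∧ (∀ φ ∈ Q, φ ∈ B) ∧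
        ∀ T : List Fm, (∀ φ ∈ T, Fm.Sentence φ) → (∀ φ ∈ B, φ ∈ T) →
        (∃ (ξ : Fm) (c : ℕ), Fm.Sentence ξ ∧
          (∀ k, ¬ Prov (conS con (ξ :: T) :: ξ :: T) k .bot) ∧
          ∀ n, Prov (ξ :: T) (n ^ c + c) (conN con (conS con (ξ :: T) :: ξ :: T) n)) ∨
        (∃ (m N : ℕ → ℕ) (ξ : ℕ → Fm),
          (∀ j, j ≤ m j ∧ Fm.Sentence (ξ j) ∧
            ¬ Prov (conS con (ξ j :: T) :: ξ j :: T) (N j) .bot) ∧
          ∀ k t : ℕ,
            (∃ c, ∀ n, Prov T (2 ^ (c * (n + 1))) ((u.sub 0 (.num t)).sub 1 (.num n))) →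
            ∃ j₀, ∀ j ≥ j₀, N j ^ k ≤ 2 ^ m j ∧ ∃ L, L ^ k ≤ 2 ^ m j ∧ ∀ n ≤ k * m j,
              Prov (conN con (conS con (ξ j :: T) :: ξ j :: T) (N j) :: conS con T :: T) L
                ((u.sub 0 (.num t)).sub 1 (.num n))) := by
  refine ⟨exists_con, fun con hcon u D hu hD hneg => ?_⟩
  have hu' : H5.Two u := hu
  obtain ⟨B, hB, hQ, h⟩ := H5.dich_main hcon hu' hD fun t n ht => by
    rw [← hu'.sub_eq]
    refine hneg t n fun e he => ht ?_
    rw [hu'.sub_eq, Fm.sat_cl] at he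
    exact he
  refine ⟨B, hB, hQ, fun T hT hBT => ?_⟩
  rcases h T hT hBT with h | ⟨m, N, ξ, h1, h2⟩
  · exact Or.inl h
  · refine Or.inr ⟨m, N, ξ, h1, fun k t ⟨c, hc⟩ => ?_⟩
    obtain ⟨j₀, hj₀⟩ := h2 k t ⟨c, fun n => by rw [← hu'.sub_eq]; exact hc n⟩
    refine ⟨j₀, fun j hj => ⟨(hj₀ j hj).1, ?_⟩⟩
    obtain ⟨L, hL, hp⟩ := (hj₀ j hj).2
    exact ⟨L, hL, fun n hn => by rw [hu'.sub_eq]; exact hp n hn⟩

end Pool.Agent.Helper81_P.AnswerOrSpeedup
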