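import Pool.Agent.Helper31_Amp.Final

/-!
# Verification of a given proof with its length
-/

namespace Helper31Con.Amp

open Function Filter Fm

/-! ### Logical axioms -/

/-- Logical axiom; vacuous for numbers that are not codes. -/
def AXV (w : ℕ) : Prop := ∀ φ, w = fc φ → Ax φ

lemma axr_of {w : ℕ} (h : AXV w) (h' : IsF w) : AxR w := by
  obtain ⟨φ, rfl⟩ := h'
  exact ⟨φ, rfl, h φ rfl⟩

lemma axv_k {w p f g : ℕ} (h1 : w = nd 8 (nd f p)) (h2 : p = nd 8 (nd g f)) : AXV w := by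
  subst h2 h1
  intro φ h
  obtain ⟨φ1, φ2, rfl, rfl, h3⟩ := inv8 h
  obtain ⟨φ3, φ4, rfl, rfl, h4⟩ := inv8 h3
  obtain rfl := fc_inj h4
  exact Ax.k _ _

lemma axv_s {w p q r s t f g h : ℕ} (h1 : w = nd 8 (nd p q)) (h2 : p = nd 8 (nd f r))
    (h3 : r = nd 8 (nd g h)) (h4 : q = nd 8 (nd s t)) (h5 : s = nd 8 (nd f g))
    (h6 : t = nd 8 (nd f h)) : AXV w := by
  subst h3 h5 h6 h2 h4 h1
  intro φ h0
  obtain ⟨φ1, φ2, rfl, e1, e2⟩ := inv8 h0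
  obtain ⟨φ3, φ4, rfl, e3, e4⟩ := inv8 e1
  obtain ⟨φ5, φ6, rfl, e5, e6⟩ := inv8 e4
  obtain ⟨φ7, φ8, rfl, e7, e8⟩ := inv8 e2
  obtain ⟨φ9, φ10, rfl, e9, e10⟩ := inv8 e7
  obtain ⟨φ11, φ12, rfl, e11, e12⟩ := inv8 e8
  obtain rfl := fc_inj (e3.symm.trans e9)
  obtain rfl := fc_inj (e3.symm.trans e11)
  obtain rfl := fc_inj (e5.symm.trans e10)
  obtain rfl := fc_inj (e6.symm.trans e12)
  exact Ax.s _ _ _

lemma axv_dne {w p q b f : ℕ} (h1 : w = nd 8 (nd p f)) (h2 : p = nd 8 (nd q b))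
    (h3 : q = nd 8 (nd f b)) (h4 : b = nd 5 0) : AXV w := by
  subst h4 h3 h2 h1
  intro φ h0
  obtain ⟨φ1, φ2, rfl, e1, e2⟩ := inv8 h0
  obtain ⟨φ3, φ4, rfl, e3, e4⟩ := inv8 e1
  obtain ⟨φ5, φ6, rfl, e5, e6⟩ := inv8 e3
  obtain ⟨rfl, _⟩ := inv5 e4
  obtain ⟨rfl, _⟩ := inv5 e6
  obtain rfl := fc_inj (e2.symm.trans e5)
  exact Ax.dne _

lemma axv_inst {w p q f j r : ℕ} (h1 : w = nd 8 (nd p q)) (h2 : p = nd 9 (nd j f))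
    (h3 : SBX f j r q) (h4 : FFX f j r) (h5 : IsT r) : AXV w := by
  subst h2 h1
  obtain ⟨r', rfl⟩ := h5
  intro φ h0
  obtain ⟨φ1, φ2, rfl, e1, e2⟩ := inv8 h0
  obtain ⟨φ3, rfl, e3⟩ := inv9 e1
  have h6 := h3.2 φ3 r' e3 rfl
  obtain rfl := fc_inj (e2.symm.trans h6)
  exact Ax.inst _ _ _ (h4 φ3 r' e3 rfl)

lemma axv_dist {w p q r f g s j : ℕ} (h1 : w = nd 8 (nd p q)) (h2 : p = nd 9 (nd j r))
    (h3 : r = nd 8 (nd f g)) (h4 : q = nd 8 (nd f s)) (h5 : s = nd 9 (nd j g)) (h6 : NHF f j) :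
    AXV w := by
  subst h3 h5 h2 h4 h1
  intro φ h0
  obtain ⟨φ1, φ2, rfl, e1, e2⟩ := inv8 h0
  obtain ⟨φ3, rfl, e3⟩ := inv9 e1
  obtain ⟨φ4, φ5, rfl, e4, e5⟩ := inv8 e3
  obtain ⟨φ6, φ7, rfl, e6, e7⟩ := inv8 e2
  obtain ⟨φ8, rfl, e8⟩ := inv9 e7
  obtain rfl := fc_inj (e4.symm.trans e6)
  obtain rfl := fc_inj (e5.symm.trans e8)
  exact Ax.dist _ _ _ (h6.2 _ e4)

lemma axv_refl {w t : ℕ} (h1 : w = nd 6 (nd t t)) : AXV w := by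
  subst h1
  intro φ h0
  obtain ⟨t1, t2, rfl, e1, e2⟩ := inv6 h0
  obtain rfl := tc_inj (e1.symm.trans e2)
  exact Ax.refl _

lemma axv_congS {w p q t s t' s' : ℕ} (h1 : w = nd 8 (nd p q)) (h2 : p = nd 6 (nd t s))
    (h3 : q = nd 6 (nd t' s')) (h4 : t' = nd 2 t) (h5 : s' = nd 2 s) : AXV w := by
  subst h4 h5 h2 h3 h1
  intro φ h0
  obtain ⟨φ1, φ2, rfl, e1, e2⟩ := inv8 h0
  obtain ⟨t1, t2, rfl, e3, e4⟩ := inv6 e1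
  obtain ⟨t3, t4, rfl, e5, e6⟩ := inv6 e2
  obtain ⟨t5, rfl, e7⟩ := inv2 e5
  obtain ⟨t6, rfl, e8⟩ := inv2 e6
  obtain rfl := tc_inj (e3.symm.trans e7)
  obtain rfl := tc_inj (e4.symm.trans e8)
  exact Ax.congS _ _

lemma axv_congAM {w p q r u t s t' s' y z d : ℕ} (hd : d = 3 ∨ d = 4)
    (h1 : w = nd 8 (nd p q)) (h2 : q = nd 8 (nd r u)) (h3 : p = nd 6 (nd t s))
    (h4 : r = nd 6 (nd t' s')) (h5 : u = nd 6 (nd y z)) (h6 : y = nd d (nd t t'))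
    (h7 : z = nd d (nd s s')) : AXV w := by
  subst h6 h7 h5 h4 h3 h2 h1
  intro φ h0
  obtain ⟨φ1, φ2, rfl, e1, e2⟩ := inv8 h0
  obtain ⟨φ3, φ4, rfl, e3, e4⟩ := inv8 e2
  obtain ⟨t1, t2, rfl, e5, e6⟩ := inv6 e1
  obtain ⟨t3, t4, rfl, e7, e8⟩ := inv6 e3
  obtain ⟨t5, t6, rfl, e9, e10⟩ := inv6 e4
  obtain ⟨t7, t8, e11, e12, e13⟩ := inv34 hd e9
  obtain ⟨t9, t10, e14, e15, e16⟩ := inv34 hd e10
  obtain rfl := tc_inj (e5.symm.trans e11)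
  obtain rfl := tc_inj (e7.symm.trans e12)
  obtain rfl := tc_inj (e6.symm.trans e14)
  obtain rfl := tc_inj (e8.symm.trans e15)
  rcases e13 with ⟨rfl, rfl⟩ | ⟨rfl, rfl⟩
  · rcases e16 with ⟨_, rfl⟩ | ⟨h, _⟩
    · exact Ax.congAdd _ _ _ _
    · omega
  · rcases e16 with ⟨h, _⟩ | ⟨_, rfl⟩
    · omega
    · exact Ax.congMul _ _ _ _

lemma axv_congEL {w p q r u t s t' s' y z d : ℕ} (hd : d = 6 ∨ d = 7)
    (h1 : w = nd 8 (nd p q)) (h2 : q = nd 8 (nd r u)) (h3 : u = nd 8 (nd y z))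
    (h4 : p = nd 6 (nd t s)) (h5 : r = nd 6 (nd t' s')) (h6 : y = nd d (nd t t'))
    (h7 : z = nd d (nd s s')) : AXV w := by
  subst h6 h7 h3 h4 h5 h2 h1
  intro φ h0
  obtain ⟨φ1, φ2, rfl, e1, e2⟩ := inv8 h0
  obtain ⟨φ3, φ4, rfl, e3, e4⟩ := inv8 e2
  obtain ⟨φ5, φ6, rfl, e5, e6⟩ := inv8 e4
  obtain ⟨t1, t2, rfl, e7, e8⟩ := inv6 e1
  obtain ⟨t3, t4, rfl, e9, e10⟩ := inv6 e3
  obtain ⟨t7, t8, e11, e12, e13⟩ := inv67 hd e5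
  obtain ⟨t9, t10, e14, e15, e16⟩ := inv67 hd e6
  obtain rfl := tc_inj (e7.symm.trans e11)
  obtain rfl := tc_inj (e9.symm.trans e12)
  obtain rfl := tc_inj (e8.symm.trans e14)
  obtain rfl := tc_inj (e10.symm.trans e15)
  rcases e13 with ⟨rfl, rfl⟩ | ⟨rfl, rfl⟩
  · rcases e16 with ⟨_, rfl⟩ | ⟨h, _⟩
    · exact Ax.congEq _ _ _ _
    · omega
  · rcases e16 with ⟨h, _⟩ | ⟨_, rfl⟩
    · omega
    · exact Ax.congLe _ _ _ _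

/-! ### Derivations -/

variable {con θ : Fm} (I : IfaceS (RA con θ))

/-- Cost of one line. -/
def cs2 (Λ : ℕ) : ℕ := 40 * (Λ + 1) * (Λ + 1)

lemma ev_axr : Ev fun X => ∀ (V : Nm X) (φ : Fm), V.T .zero → V.F φ → Ax φ →
    X.E (cs2 φ.len) (I.A 9 (V.f φ) o o o) := by
  have rk := ev_rule I [.n2 (x 0) 8 (x 1) (x 2), .n2 (x 2) 8 (x 3) (x 1), .rl 1 (x 0) o o o]
    (.rl 9 (x 0) o o o) (by simp [At.Wf, Al]) (fun e h1 h2 hw => axr_of (axv_k h1 h2) hw)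
  have rs := ev_rule I [.n2 (x 0) 8 (x 1) (x 2), .n2 (x 1) 8 (x 3) (x 4),
    .n2 (x 4) 8 (x 5) (x 6), .n2 (x 2) 8 (x 7) (x 8), .n2 (x 7) 8 (x 3) (x 5),
    .n2 (x 8) 8 (x 3) (x 6), .rl 1 (x 0) o o o]
    (.rl 9 (x 0) o o o) (by simp [At.Wf, Al])
    (fun e h1 h2 h3 h4 h5 h6 hw => axr_of (axv_s h1 h2 h3 h4 h5 h6) hw)
  have rd := ev_rule I [.n2 (x 0) 8 (x 1) (x 4), .n2 (x 1) 8 (x 2) (x 3),
    .n2 (x 2) 8 (x 4) (x 3), .n1 (x 3) 5 o, .rl 1 (x 0) o o o]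
    (.rl 9 (x 0) o o o) (by simp [At.Wf, Al]) (fun e h1 h2 h3 h4 hw => axr_of (axv_dne h1 h2 h3 h4) hw)
  have ri := ev_rule I [.n2 (x 0) 8 (x 1) (x 2), .n2 (x 1) 9 (x 3) (x 4),
    .rl 19 (x 4) (x 3) (x 5) (x 2), .rl 20 (x 4) (x 3) (x 5) o, .rl 0 (x 5) o o o, .rl 1 (x 0) o o o]
    (.rl 9 (x 0) o o o) (by simp [At.Wf, Al])
    (fun e h1 h2 h3 h4 h5 hw => axr_of (axv_inst h1 h2 h3 h4 h5) hw)
  have rt := ev_rule I [.n2 (x 0) 8 (x 1) (x 2), .n2 (x 1) 9 (x 3) (x 4),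
    .n2 (x 4) 8 (x 5) (x 6), .n2 (x 2) 8 (x 5) (x 7), .n2 (x 7) 9 (x 3) (x 6),
    .rl 18 (x 5) (x 3) o o, .rl 1 (x 0) o o o]
    (.rl 9 (x 0) o o o) (by simp [At.Wf, Al])
    (fun e h1 h2 h3 h4 h5 h6 hw => axr_of (axv_dist h1 h2 h3 h4 h5 h6) hw)
  have rr := ev_rule I [.n2 (x 0) 6 (x 1) (x 1), .rl 1 (x 0) o o o]
    (.rl 9 (x 0) o o o) (by simp [At.Wf, Al]) (fun e h1 hw => axr_of (axv_refl h1) hw)
  have rc := ev_rule I [.n2 (x 0) 8 (x 1) (x 2), .n2 (x 1) 6 (x 3) (x 4),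
    .n2 (x 2) 6 (x 5) (x 6), .n1 (x 5) 2 (x 3), .n1 (x 6) 2 (x 4), .rl 1 (x 0) o o o]
    (.rl 9 (x 0) o o o) (by simp [At.Wf, Al])
    (fun e h1 h2 h3 h4 h5 hw => axr_of (axv_congS h1 h2 h3 h4 h5) hw)
  have ram := fun (d : ℕ) (hd : d = 3 ∨ d = 4) => ev_rule I [.n2 (x 0) 8 (x 1) (x 2),
    .n2 (x 2) 8 (x 3) (x 4), .n2 (x 1) 6 (x 5) (x 6), .n2 (x 3) 6 (x 7) (x 8),
    .n2 (x 4) 6 (x 9) (x 10), .n2 (x 9) d (x 5) (x 7), .n2 (x 10) d (x 6) (x 8), .rl 1 (x 0) o o o]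
    (.rl 9 (x 0) o o o) (by simp [At.Wf, Al])
    (fun e h1 h2 h3 h4 h5 h6 h7 hw => axr_of (axv_congAM hd h1 h2 h3 h4 h5 h6 h7) hw)
  have rel := fun (d : ℕ) (hd : d = 6 ∨ d = 7) => ev_rule I [.n2 (x 0) 8 (x 1) (x 2),
    .n2 (x 2) 8 (x 3) (x 4), .n2 (x 4) 8 (x 9) (x 10), .n2 (x 1) 6 (x 5) (x 6),
    .n2 (x 3) 6 (x 7) (x 8), .n2 (x 9) d (x 5) (x 7), .n2 (x 10) d (x 6) (x 8), .rl 1 (x 0) o o o]
    (.rl 9 (x 0) o o o) (by simp [At.Wf, Al])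
    (fun e h1 h2 h3 h4 h5 h6 h7 hw => axr_of (axv_congEL hd h1 h2 h3 h4 h5 h6 h7) hw)
  refine (((rk.and rs).and (rd.and ri)).and ((rt.and rr).and (rc.and (((ram 3 (by omega)).and
    (ram 4 (by omega))).and ((rel 6 (by omega)).and (rel 7 (by omega)))))) |>.and
    ((((ev_isT I).and (ev_nhF I)).and ((ev_sbF I).and (ev_ff I))).and (ev_isF I))).mono ?_
  rintro X ⟨⟨⟨⟨rk, rs⟩, ⟨rd, ri⟩⟩, ⟨⟨rt, rr⟩, ⟨rc, ⟨⟨r3, r4⟩, ⟨r6, r7⟩⟩⟩⟩⟩,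
    ⟨⟨⟨hT, hN⟩, ⟨hS, hFF⟩⟩, hI⟩⟩ V φ hz hF hφ
  have ha : X.Ok o := X.ok_zero
  have hw := hI V φ hF
  have hc : ∀ n : ℕ, 40 * (n + 1) ≤ cs2 n := fun n => by
    unfold cs2; nlinarith
  cases hφ with
  | k f g =>
    obtain ⟨F1, F2, h1⟩ := V.imp _ _ hF
    obtain ⟨F3, _, h2⟩ := V.imp _ _ F2
    exact (rk _ [1, 1, _] (Cx.ok5 (V.okf _ hF) (V.okf _ F1) (V.okf _ F2) (V.okf _ F3) ha)
      (.cons h1 (.cons h2 (.cons hw .nil)))).mono (by have := hc (imp f (imp g f)).len; simp; omega)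
  | s f g h =>
    obtain ⟨F1, F2, h1⟩ := V.imp _ _ hF
    obtain ⟨F3, F4, h2⟩ := V.imp _ _ F1
    obtain ⟨F5, F6, h3⟩ := V.imp _ _ F4
    obtain ⟨F7, F8, h4⟩ := V.imp _ _ F2
    obtain ⟨_, _, h5⟩ := V.imp _ _ F7
    obtain ⟨_, _, h6⟩ := V.imp _ _ F8
    exact (rs _ [1, 1, 1, 1, 1, 1, _] (Cx.ok10 (V.okf _ hF) (V.okf _ F1) (V.okf _ F2) (V.okf _ F3)
      (V.okf _ F4) (V.okf _ F5) (V.okf _ F6) (V.okf _ F7) (V.okf _ F8) ha)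
      (.cons h1 (.cons h2 (.cons h3 (.cons h4 (.cons h5 (.cons h6 (.cons hw .nil)))))))).mono
        (by have := hc (imp (imp f (imp g h)) (imp (imp f g) (imp f h))).len; simp; omega)
  | dne f =>
    obtain ⟨F1, F2, h1⟩ := V.imp _ _ hF
    obtain ⟨F3, F4, h2⟩ := V.imp _ _ F1
    obtain ⟨_, _, h3⟩ := V.imp _ _ F3
    exact (rd _ [1, 1, 1, 1, _] (Cx.ok6 (V.okf _ hF) (V.okf _ F1) (V.okf _ F3) (V.okf _ F4)
      (V.okf _ F2) ha) (.cons h1 (.cons h2 (.cons h3 (.cons (V.bot F4) (.cons hw .nil)))))).mono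
        (by have := hc (imp (imp (imp f bot) bot) f).len; simp; omega)
  | inst j f t hff =>
    -- the instantiated term may be assumed to occur
    obtain ⟨r, hr, hlen, hsub, hff'⟩ : ∃ r : Tm, V.T r ∧
        r.len ≤ (imp (all j f) (f.sub j t)).len ∧ f.sub j t = f.sub j r ∧ f.FreeFor j r := by
      have F2 := (V.imp _ _ hF).2.1
      by_cases hfr : f.Free j
      · have := len_of_free (t := t) hfr
        exact ⟨t, V.F_of_sub hfr F2, by simp only [Fm.len]; omega, rfl, hff⟩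
      · refine ⟨.zero, hz, by simp only [Fm.len, Tm.len]; omega, ?_,
          Fm.freeFor_of_closed (fun _ h => absurd h (by simp [Tm.Has])) f⟩
        rw [Fm.sub_of_not_free hfr, Fm.sub_of_not_free hfr]
    rw [hsub] at hlen hF hw ⊢
    obtain ⟨F1, F2, h1⟩ := V.imp _ _ hF
    obtain ⟨hj, F3, h2⟩ := V.all _ _ F1
    refine (ri _ [1, 1, _, _, _, _] (Cx.ok7 (V.okf _ hF) (V.okf _ F1) (V.okf _ F2) hj (V.okf _ F3)
      (V.okt _ hr) ha) (.cons h1 (.cons h2 (.cons (hS V j r hj hr f F3 F2)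
      (.cons (hFF V j r hj hr f F3 hff') (.cons (hT V r hr) (.cons hw .nil))))))).mono ?_
    set L := (imp (all j f) (f.sub j r)).len with hL
    have l1 : f.len ≤ L := by rw [hL]; simp only [Fm.len]; omega
    have l2 : (3 * r.len + 5) * f.len ≤ (3 * L + 5) * L := Nat.mul_le_mul (by omega) l1
    simp only [List.sum_cons, List.sum_nil, cs2]
    nlinarith
  | dist j f g hn =>
    obtain ⟨F1, F2, h1⟩ := V.imp _ _ hF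
    obtain ⟨hj, F3, h2⟩ := V.all _ _ F1
    obtain ⟨F4, F5, h3⟩ := V.imp _ _ F3
    obtain ⟨_, F6, h4⟩ := V.imp _ _ F2
    obtain ⟨_, _, h5⟩ := V.all _ _ F6
    refine (rt _ [1, 1, 1, 1, 1, _, _] (Cx.ok9 (V.okf _ hF) (V.okf _ F1) (V.okf _ F2) hj
      (V.okf _ F3) (V.okf _ F4) (V.okf _ F5) (V.okf _ F6) ha)
      (.cons h1 (.cons h2 (.cons h3 (.cons h4 (.cons h5 (.cons (hN V j hj f F4 hn)
        (.cons hw .nil)))))))).mono ?_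
    have := hc (imp (all j (imp f g)) (imp f (all j g))).len
    simp only [List.sum_cons, List.sum_nil, Fm.len] at this ⊢
    omega
  | refl t =>
    obtain ⟨F1, F2, h1⟩ := V.eq _ _ hF
    exact (rr _ [1, _] (Cx.ok3 (V.okf _ hF) (V.okt _ F1) ha) (.cons h1 (.cons hw .nil))).mono
      (by have := hc (Fm.eq t t).len; simp; omega)
  | congS t s =>
    obtain ⟨F1, F2, h1⟩ := V.imp _ _ hF
    obtain ⟨F3, F4, h2⟩ := V.eq _ _ F1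
    obtain ⟨F5, F6, h3⟩ := V.eq _ _ F2
    obtain ⟨_, h4⟩ := V.succ _ F5
    obtain ⟨_, h5⟩ := V.succ _ F6
    exact (rc _ [1, 1, 1, 1, 1, _] (Cx.ok8 (V.okf _ hF) (V.okf _ F1) (V.okf _ F2) (V.okt _ F3)
      (V.okt _ F4) (V.okt _ F5) (V.okt _ F6) ha)
      (.cons h1 (.cons h2 (.cons h3 (.cons h4 (.cons h5 (.cons hw .nil))))))).mono
        (by have := hc (imp (Fm.eq t s) (Fm.eq (.succ t) (.succ s))).len; simp; omega)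
  | congAdd t s t' s' =>
    obtain ⟨F1, F2, h1⟩ := V.imp _ _ hF
    obtain ⟨F3, F4, h2⟩ := V.imp _ _ F2
    obtain ⟨T1, T2, h3⟩ := V.eq _ _ F1
    obtain ⟨T3, T4, h4⟩ := V.eq _ _ F3
    obtain ⟨T5, T6, h5⟩ := V.eq _ _ F4
    obtain ⟨_, _, h6⟩ := V.add _ _ T5
    obtain ⟨_, _, h7⟩ := V.add _ _ T6
    exact (r3 _ [1, 1, 1, 1, 1, 1, 1, _] (Cx.ok12 (V.okf _ hF) (V.okf _ F1) (V.okf _ F2)
      (V.okf _ F3) (V.okf _ F4) (V.okt _ T1) (V.okt _ T2) (V.okt _ T3) (V.okt _ T4)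
      (V.okt _ T5) (V.okt _ T6) ha)
      (.cons h1 (.cons h2 (.cons h3 (.cons h4 (.cons h5 (.cons h6 (.cons h7 (.cons hw .nil))))))))).mono
        (by have := hc (imp (Fm.eq t s) (imp (Fm.eq t' s')
          (Fm.eq (.add t t') (.add s s')))).len; simp; omega)
  | congMul t s t' s' =>
    obtain ⟨F1, F2, h1⟩ := V.imp _ _ hF
    obtain ⟨F3, F4, h2⟩ := V.imp _ _ F2
    obtain ⟨T1, T2, h3⟩ := V.eq _ _ F1
    obtain ⟨T3, T4, h4⟩ := V.eq _ _ F3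
    obtain ⟨T5, T6, h5⟩ := V.eq _ _ F4
    obtain ⟨_, _, h6⟩ := V.mul _ _ T5
    obtain ⟨_, _, h7⟩ := V.mul _ _ T6
    exact (r4 _ [1, 1, 1, 1, 1, 1, 1, _] (Cx.ok12 (V.okf _ hF) (V.okf _ F1) (V.okf _ F2)
      (V.okf _ F3) (V.okf _ F4) (V.okt _ T1) (V.okt _ T2) (V.okt _ T3) (V.okt _ T4)
      (V.okt _ T5) (V.okt _ T6) ha)
      (.cons h1 (.cons h2 (.cons h3 (.cons h4 (.cons h5 (.cons h6 (.cons h7 (.cons hw .nil))))))))).mono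
        (by have := hc (imp (Fm.eq t s) (imp (Fm.eq t' s')
          (Fm.eq (.mul t t') (.mul s s')))).len; simp; omega)
  | congEq t s t' s' =>
    obtain ⟨F1, F2, h1⟩ := V.imp _ _ hF
    obtain ⟨F3, F4, h2⟩ := V.imp _ _ F2
    obtain ⟨F5, F6, h3⟩ := V.imp _ _ F4
    obtain ⟨T1, T2, h4⟩ := V.eq _ _ F1
    obtain ⟨T3, T4, h5⟩ := V.eq _ _ F3
    obtain ⟨_, _, h6⟩ := V.eq _ _ F5
    obtain ⟨_, _, h7⟩ := V.eq _ _ F6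
    exact (r6 _ [1, 1, 1, 1, 1, 1, 1, _] (Cx.ok12 (V.okf _ hF) (V.okf _ F1) (V.okf _ F2)
      (V.okf _ F3) (V.okf _ F4) (V.okt _ T1) (V.okt _ T2) (V.okt _ T3) (V.okt _ T4)
      (V.okf _ F5) (V.okf _ F6) ha)
      (.cons h1 (.cons h2 (.cons h3 (.cons h4 (.cons h5 (.cons h6 (.cons h7 (.cons hw .nil))))))))).mono
        (by have := hc (imp (Fm.eq t s) (imp (Fm.eq t' s') (imp (Fm.eq t t')
          (Fm.eq s s')))).len; simp; omega)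
  | congLe t s t' s' =>
    obtain ⟨F1, F2, h1⟩ := V.imp _ _ hF
    obtain ⟨F3, F4, h2⟩ := V.imp _ _ F2
    obtain ⟨F5, F6, h3⟩ := V.imp _ _ F4
    obtain ⟨T1, T2, h4⟩ := V.eq _ _ F1
    obtain ⟨T3, T4, h5⟩ := V.eq _ _ F3
    obtain ⟨_, _, h6⟩ := V.le _ _ F5
    obtain ⟨_, _, h7⟩ := V.le _ _ F6
    exact (r7 _ [1, 1, 1, 1, 1, 1, 1, _] (Cx.ok12 (V.okf _ hF) (V.okf _ F1) (V.okf _ F2)
      (V.okf _ F3) (V.okf _ F4) (V.okt _ T1) (V.okt _ T2) (V.okt _ T3) (V.okt _ T4)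
      (V.okf _ F5) (V.okf _ F6) ha)
      (.cons h1 (.cons h2 (.cons h3 (.cons h4 (.cons h5 (.cons h6 (.cons h7 (.cons hw .nil))))))))).mono
        (by have := hc (imp (Fm.eq t s) (imp (Fm.eq t' s') (imp (Fm.le t t')
          (Fm.le s s')))).len; simp; omega)


end Helper31Con.Amp
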