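import Pool.Agent.Helper81_P.Final

/-!
# For true theories and polynomial lengths the two cases exclude each other
-/

namespace Helper31Con.X81

open Function Filter Fm Amp H5 H40

/-- The two cases exclude each other. -/
theorem excl {con : Fm} (hcon : IsCon con) {B₁ E : List Fm} (h1 : AllTrue B₁) (hE : AllTrue E) :
    ¬ (Optimal con PolyF E ∧ Negative con PolyF B₁ E) := by
  rintro ⟨⟨ho, ho'⟩, hn⟩
  obtain ⟨σ, hσ, -, hσA⟩ := hn B₁ (fun φ hφ => (h1 φ hφ).1) (Proves.of_subset fun φ hφ => hφ)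
    (ho _ (fun φ hφ => (h1 φ hφ).1) (H40.true_consistent h1))
  have hA : AllTrue (σ :: (B₁ ++ E)) := by
    intro φ hφ
    rcases List.mem_cons.mp hφ with rfl | hφ
    · exact hσ
    rcases List.mem_append.mp hφ with hφ | hφ
    · exact h1 φ hφ
    · exact hE φ hφ
  have hA' : AllTrue (conS con (σ :: (B₁ ++ E)) :: σ :: (B₁ ++ E)) := by
    intro φ hφ
    rcases List.mem_cons.mp hφ with rfl | hφ
    · exact H40.true_conS hcon hA
    · exact hA φ hφ
  refine (hσA (σ :: (B₁ ++ E)) (fun φ hφ => (hA φ hφ).1) (Proves.of_subset fun φ hφ => ?_)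
    (ho _ (fun φ hφ => (hA φ hφ).1) (H40.true_consistent hA))).1 (polyF_iff.mp
    (ho' _ (fun φ hφ => (hA φ hφ).1) (Proves.of_subset fun φ hφ => ?_)
      (H40.true_consistent hA')))
  · rcases List.mem_cons.mp hφ with rfl | hφ
    · exact List.mem_cons_self
    · exact List.mem_cons_of_mem _ (List.mem_append_left _ hφ)
  · exact List.mem_cons_of_mem _ (List.mem_append_right _ hφ)

/-- The final theorem. -/
theorem final {con : Fm} (hcon : IsCon con) {B : List Fm} (hB : AllTrue B) :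
    ∃ B₁ : List Fm, AllTrue B₁ ∧ (∀ φ ∈ B, φ ∈ B₁) ∧ (∀ φ ∈ Q, φ ∈ B₁) ∧
      (∀ Φ : Set (ℕ → ℕ), PolyClosed Φ → ∀ E : List Fm, Sents E → Proves E B₁ →
        Optimal con Φ E ∨ Negative con Φ B₁ E) ∧
      ∀ E : List Fm, AllTrue E → ¬ (Optimal con PolyF E ∧ Negative con PolyF B₁ E) := by
  obtain ⟨B₁, h1, h2, h3, h4⟩ := dichF hcon hB
  exact ⟨B₁, h1, h2, h3, h4, fun E hE => excl hcon h1 hE⟩

end Helper31Con.X81
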