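import Pool.Agent.Helper81_P.Ver
import Pool.Agent.Helper15_PSC.Psc

/-!
# Contexts with names for a list of formulas
-/

namespace Helper31Con.Amp

open Function Filter Fm

/-- The name of a list. -/
def lwt (W : ℕ) : List Fm → Tm
  | [] => .zero
  | _ :: l => .var (W + l.length)

/-- Definitions of the names of the ends of a list. -/
def ldefs (v : Ex → ℕ) (W : ℕ) : List Fm → List (ℕ × Tm)
  | [] => []
  | φ :: l => (W + l.length, ndT (.var (v (Sum.inr φ))) (lwt W l)) :: ldefs v W l

lemma lwt_has {W i : ℕ} : ∀ {l : List Fm}, (lwt W l).Has i → i < W + l.length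
  | [], h => absurd h (by simp [lwt, Tm.Has])
  | _ :: l, h => by
    have h' : W + l.length = i := h
    simp only [List.length_cons]; omega

lemma ldefs_lt {v : Ex → ℕ} {W : ℕ} : ∀ {L : List Fm}, (∀ φ ∈ L, v (Sum.inr φ) < W) →
    ∀ q ∈ ldefs v W L, q.1 < W + L.length ∧ ∀ i, q.2.Has i → i < W + L.length
  | [], _, q, hq => by simp [ldefs] at hq
  | φ :: l, hv, q, hq => by
    rcases List.mem_cons.mp hq with rfl | hq
    · refine ⟨by simp only [List.length_cons]; omega, fun i hi => ?_⟩
      rw [has_ndT] at hi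
      rcases hi with hi | hi
      · have h1 := hv φ List.mem_cons_self
        have h2 : v (Sum.inr φ) = i := hi
        simp only [List.length_cons]; omega
      · have := lwt_has hi
        simp only [List.length_cons]; omega
    · have := ldefs_lt (fun ψ hψ => hv ψ (List.mem_cons_of_mem _ hψ)) q hq
      refine ⟨by simp only [List.length_cons]; omega, fun i hi => ?_⟩
      have := this.2 i hi
      simp only [List.length_cons]; omega

lemma length_ldefs (v : Ex → ℕ) (W : ℕ) : ∀ L : List Fm, (ldefs v W L).length = L.length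
  | [] => rfl
  | _ :: l => by
    show (ldefs v W l).length + 1 = _
    rw [length_ldefs v W l, List.length_cons]

lemma adm_ldefs {v : Ex → ℕ} {W : ℕ} {ds : List (ℕ × Tm)} (hd : Adm ds)
    (hW : ∀ q ∈ ds, q.1 < W ∧ ∀ i, q.2.Has i → i < W) :
    ∀ {L : List Fm}, (∀ φ ∈ L, v (Sum.inr φ) < W) → Adm (ldefs v W L ++ ds)
  | [], _ => hd
  | φ :: l, hv => by
    have hv' : ∀ ψ ∈ l, v (Sum.inr ψ) < W := fun ψ hψ => hv ψ (List.mem_cons_of_mem _ hψ)
    refine ⟨fun h => ?_, fun q hq => ?_, adm_ldefs hd hW hv'⟩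
    · have h' : (ndT (.var (v (Sum.inr φ))) (lwt W l)).Has (W + l.length) := h
      rw [has_ndT] at h'
      rcases h' with h' | h'
      · have h1 := hv φ List.mem_cons_self
        have h2 : v (Sum.inr φ) = W + l.length := h'
        omega
      · have := lwt_has h'
        omega
    · rcases List.mem_append.mp hq with hq | hq
      · have := ldefs_lt hv' q hq
        refine ⟨fun h => ?_, fun h => ?_⟩
        · have h' : q.1 = W + l.length := h
          omega
        · have := this.2 _ h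
          omega
      · have := hW q hq
        refine ⟨fun h => ?_, fun h => ?_⟩
        · have h' : q.1 = W + l.length := h
          omega
        · have := this.2 _ h
          omega

lemma ldefs_ge {v : Ex → ℕ} {W : ℕ} : ∀ {L : List Fm}, ∀ q ∈ ldefs v W L, W ≤ q.1
  | [], q, hq => by simp [ldefs] at hq
  | φ :: l, q, hq => by
    rcases List.mem_cons.mp hq with rfl | hq
    · exact Nat.le_add_right _ _
    · exact ldefs_ge q hq

lemma len_lwt (W : ℕ) (l : List Fm) : (lwt W l).len ≤ W + l.length + 1 := by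
  cases l with
  | nil => simp [lwt, Tm.len]
  | cons φ l => simp only [lwt, Tm.len, List.length_cons]; omega

lemma ldefs_len {v : Ex → ℕ} {W : ℕ} : ∀ {L : List Fm}, (∀ φ ∈ L, v (Sum.inr φ) < W) →
    ∀ q ∈ ldefs v W L, (Fm.eq (.var q.1) q.2).len ≤ 6 * (W + L.length) + 10
  | [], _, q, hq => by simp [ldefs] at hq
  | φ :: l, hv, q, hq => by
    rcases List.mem_cons.mp hq with rfl | hq
    · have h1 := hv φ List.mem_cons_self
      have h2 := len_lwt W l
      simp only [Fm.len, Tm.len, len_ndT, List.length_cons]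
      omega
    · have := ldefs_len (fun ψ hψ => hv ψ (List.mem_cons_of_mem _ hψ)) q hq
      simp only [List.length_cons]; omega

lemma lnm_of {X : Cx} {V : Nm X} {v : Ex → ℕ} {W : ℕ} (hV : ∀ φ, V.f φ = .var (v (Sum.inr φ)))
    (hW : X.W ≤ W) : ∀ {L : List Fm}, W + L.length ≤ X.S →
    (∀ q ∈ ldefs v W L, X.E 1 (Fm.eq (.var q.1) q.2)) → LNm X V (lwt W) L
  | [], _, _ => rfl
  | φ :: l, hS, h => by
    rw [List.length_cons] at hS
    refine ⟨⟨fun i hi => ?_, ?_⟩, ?_, lnm_of hV hW (by omega)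
      fun q hq => h q (List.mem_cons_of_mem _ hq)⟩
    · have hi' : W + l.length = i := hi
      omega
    · show W + l.length + 1 ≤ X.S
      omega
    · rw [hV]
      exact h _ List.mem_cons_self

open Classical in
/-- A context with names for the subexpressions of some formulas and terms and for the ends of a
list. -/
lemma exists_ctx (B : List Fm) (c₀ S₀ : ℕ) (L fs : List Fm) (ts : List Tm) (K : ℕ)
    (hK : plen (L ++ fs) + tlen ts ≤ K) :
    ∃ X : Cx, X.B = B ∧ X.W = c₀ ∧ X.S = 12 * (c₀ + 2 * K) + 100 + S₀ ∧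
      X.C = (X.S + c₀) ^ c₀ ∧
      ((∀ γ ∈ X.G, X.E 1 γ) → ∃ (V : Nm X) (w : List Fm → Tm), (∀ ψ ∈ L ++ fs, V.F ψ) ∧
        (∀ t ∈ ts, V.T t) ∧ (∀ ψ, V.F ψ → ψ.len ≤ K) ∧ LNm X V w L) ∧
      ∀ φ n, (∀ i, φ.Free i → i < c₀) → X.E n φ → Pr B (X.C * n + 10 * K) (4 * X.C + 5) φ := by
  set D := (pre (L ++ fs) ts).dedup with hDdef
  have hD : Cl D := cl_dedup (cl_pre _ _)
  have hnd : D.Nodup := List.nodup_dedup _
  have hDlen : D.length ≤ K :=
    ((List.dedup_sublist _).length_le.trans (length_pre _ _)).trans hK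
  have hexl : ∀ e ∈ D, exl e ≤ K := fun e he => (exl_pre (List.mem_dedup.mp he)).trans hK
  set v : Ex → ℕ := fun e => c₀ + pos D e with hv
  have hvinj : ∀ e ∈ D, ∀ e' ∈ D, v e = v e' → e = e' := by
    intro e he e' _ h
    refine pos_inj he ?_
    have h2 : c₀ + pos D e = c₀ + pos D e' := h
    omega
  have hvlt : ∀ e ∈ D, v e + 1 ≤ c₀ + K := by
    intro e he
    have := pos_lt he
    show c₀ + pos D e + 1 ≤ _
    omega
  have hFL : ∀ ψ ∈ L ++ fs, Sum.inr ψ ∈ D := fun ψ hψ => by
    rw [hDdef, List.mem_dedup]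
    exact mem_pre_f hψ
  have hTs : ∀ t ∈ ts, Sum.inl t ∈ D := fun t ht => by
    rw [hDdef, List.mem_dedup]
    exact mem_pre_t ht
  have hLK : L.length ≤ K := by
    have h1 := length_le_plen L
    rw [plen_append] at hK
    omega
  obtain ⟨W, hW⟩ : ∃ W, W = c₀ + K := ⟨_, rfl⟩
  have hvL : ∀ φ ∈ L, v (Sum.inr φ) < W := fun φ hφ => by
    have := hvlt _ (hFL φ (List.mem_append_left _ hφ))
    omega
  have hdW : ∀ q ∈ defs v D, q.1 < W ∧ ∀ i, q.2.Has i → i < W := by
    intro q hq
    obtain ⟨e, he, rfl⟩ := List.mem_map.mp hq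
    refine ⟨by have := hvlt e he; show v e < W; omega, fun i hi => ?_⟩
    obtain ⟨c, hc, rfl⟩ := has_dft hi
    have := hvlt c (cl_mem hD he hc)
    omega
  set ds := ldefs v W L ++ defs v D with hds
  have hadm : Adm ds := adm_ldefs (adm_defs hD hnd hvinj) hdW hvL
  have hdl : ds.length ≤ 2 * K := by
    rw [hds, List.length_append, length_ldefs]
    simp only [defs, List.length_map]
    omega
  obtain ⟨S, hS⟩ : ∃ S, S = 12 * (c₀ + 2 * K) + 100 + S₀ := ⟨_, rfl⟩
  have hG : (dfs ds).length ≤ S := by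
    rw [dfs, List.length_map]
    omega
  have hlG : ∀ γ ∈ dfs ds, γ.len ≤ S := by
    intro γ hγ
    obtain ⟨p, hp, rfl⟩ := List.mem_map.mp hγ
    rcases List.mem_append.mp hp with hp | hp
    · have := ldefs_len hvL p hp
      omega
    · obtain ⟨e, he, rfl⟩ := List.mem_map.mp hp
      have h1 := hvlt e he
      have h2 := len_dft (v := v) (e := e) (K := c₀ + K)
        (fun c hc => hvlt c (cl_mem hD he hc)) ((hexl e he).trans (by omega))
      simp only [Fm.len, Tm.len]
      omega
  refine ⟨⟨B, dfs ds, c₀, S, (S + c₀) ^ c₀, by omega, hG, hlG⟩, rfl, rfl, hS, rfl, ?_, ?_⟩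
  · intro hhyp
    set X : Cx := ⟨B, dfs ds, c₀, S, (S + c₀) ^ c₀, by omega, hG, hlG⟩ with hX
    have hXS : X.S = S := rfl
    have hXW : X.W = c₀ := rfl
    have hE : ∀ q ∈ ds, X.E 1 (Fm.eq (.var q.1) q.2) := fun q hq =>
      hhyp _ (List.mem_map_of_mem (f := fun p : ℕ × Tm => Fm.eq (.var p.1) p.2) hq)
    refine ⟨mkNm X v D hD hexl (by rw [hXS]; omega) (fun e he => ⟨by
      rw [hXW]; exact Nat.le_add_right _ _, by have := hvlt e he; rw [hXS]; omega⟩)
      (fun e he => hE _ (List.mem_append_right _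
        (List.mem_map_of_mem (f := fun e => (v e, dft v e)) he))), lwt W, hFL, hTs,
      fun ψ hψ => hexl (Sum.inr ψ) hψ, ?_⟩
    refine lnm_of (v := v) (fun φ => rfl) (by rw [hXW, hW]; omega) (by rw [hXS]; omega) ?_
    exact fun q hq => hE q (List.mem_append_left _ hq)
  · intro φ n hφ h
    have h' : Pr B ((S + c₀) ^ c₀ * n) ((S + c₀) ^ c₀) (impL (dfs ds) φ) := h
    have hlen := h'.len_le
    have key := Pr.elimL (M := 4 * (S + c₀) ^ c₀ + 5) ds _ hadm (fun p hp hf => by
      have h1 := hφ _ hf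
      rcases List.mem_append.mp hp with hp | hp
      · have := ldefs_ge p hp
        omega
      · obtain ⟨e, he, rfl⟩ := List.mem_map.mp hp
        have h3 : c₀ + pos D e < c₀ := h1
        omega) (by omega) (h'.mono le_rfl (by omega))
    exact key.mono (by
      show (S + c₀) ^ c₀ * n + 5 * ds.length ≤ (S + c₀) ^ c₀ * n + 10 * K
      omega) le_rfl

end Helper31Con.Amp
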