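import Pool.Agent.Helper40_H.Defs

/-!
# Definitions for classes of lengths
-/

namespace Helper31Con.X81

open Fm H40

/-- For some `f ∈ Φ` and all `n`, `A` proves `Con_T(n)` with at most `f n` symbols. -/
def Within (con : Fm) (Φ : Set (ℕ → ℕ)) (A T : List Fm) : Prop :=
  ∃ f ∈ Φ, ∀ n, Prov A (f n) (conN con T n)

/-- `Φ` is a class of nondecreasing functions closed under polynomial changes of the argument and
of the value. -/
def PolyClosed (Φ : Set (ℕ → ℕ)) : Prop :=
  (∀ f ∈ Φ, Monotone f) ∧
    ∀ f ∈ Φ, ∀ c : ℕ, ∃ g ∈ Φ, ∀ n, (f ((n + c) ^ c) + n + c) ^ c ≤ g n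

/-- The functions `n ^ c + c`. -/
def PolyF : Set (ℕ → ℕ) := {f | ∃ c : ℕ, f = fun n => n ^ c + c}

/-- The nondecreasing functions `f` with `f(n) ≤ 2 ^ (n ^ ε)` for all `ε > 0` and all large `n`. -/
def SubexpF : Set (ℕ → ℕ) := {f | Monotone f ∧
  ∀ ε : ℝ, 0 < ε → ∀ᶠ n : ℕ in Filter.atTop, (f n : ℝ) ≤ 2 ^ ((n : ℝ) ^ ε)}

/-- `E` is optimal for lengths in `Φ`: it proves the finite consistency statements of every
consistent `S`.  Then each `A` that proves `E` proves those of `A + Con_A`, if this is
consistent. -/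
def Optimal (con : Fm) (Φ : Set (ℕ → ℕ)) (E : List Fm) : Prop :=
  (∀ S : List Fm, Sents S → Consis S → Within con Φ E S) ∧
    ∀ A : List Fm, Sents A → Proves A E → Consis (conS con A :: A) →
      Within con Φ A (conS con A :: A)

/-- Each `A₀` that proves `B₁` and lies below `E` has a true extension `A₀ + σ` below `E` such that
the negated form of the question holds for all `A` above `A₀ + σ` and below `E`; here `A` lies below
`E` if `E` proves the finite consistency statements of `A` with lengths in `Φ`, and `A` lies above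
`A₀ + σ` if it proves `A₀ + σ`.  Even the finite consistency statements of `A₀ + σ + Con_A` have no
polynomial proofs in `A`. -/
def Negative (con : Fm) (Φ : Set (ℕ → ℕ)) (B₁ E : List Fm) : Prop :=
  ∀ A₀ : List Fm, Sents A₀ → Proves A₀ B₁ → Within con Φ E A₀ →
    ∃ σ : Fm, TrueS σ ∧ Within con Φ E (σ :: A₀) ∧
      ∀ A : List Fm, Sents A → Proves A (σ :: A₀) → Within con Φ E A →
        ¬ Short con A (conS con A :: A) ∧ ¬ Short con A (conS con A :: σ :: A₀)

end Helper31Con.X81
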