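import Pool.Agent.Helper81_P.Phi

/-!
# The dichotomy for classes of lengths, and the form for polynomials
-/

namespace Helper31Con.X81

open Function Filter Fm Amp H5 H40

/-- The main implication. -/
theorem mainF {con : Fm} (hcon : IsCon con) {B : List Fm} (hB : AllTrue B) :
    ∃ B₁ : List Fm, AllTrue B₁ ∧ (∀ φ ∈ B, φ ∈ B₁) ∧ (∀ φ ∈ Q, φ ∈ B₁) ∧
      ∀ Φ, PolyClosed Φ →
      (∀ E S : List Fm, Proves E B₁ → Sents S → Consis S → ¬ Within con Φ E S →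
        ∃ S' : List Fm, AllTrue S' ∧ ¬ Within con Φ E S') ∧
      ∀ A₀ E S : List Fm, Sents A₀ → Sents S → Proves A₀ B₁ → Proves E B₁ → Within con Φ E A₀ →
        ∃ σ, Sentence σ ∧ (AllTrue S → TrueS σ) ∧ Within con Φ E (σ :: A₀) ∧
          ∀ A T : List Fm, Sents A → Proves A (σ :: A₀) → Within con Φ E A → Sents T →
            Proves T (conS con A :: σ :: A₀) → Short con A T → Within con Φ E S := by
  obtain ⟨I⟩ := exists_ifaceA (θ := bot) hcon (fun k hk => absurd hk (fun h => h))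
  obtain ⟨Bp, hBp, hpsc⟩ := within_psc hcon
  obtain ⟨Bs, hBs, hspl⟩ := within_split hcon
  obtain ⟨Bt, hBt, htr⟩ := within_trans hcon
  obtain ⟨Bd, hBd, hdown⟩ := within_down hcon
  obtain ⟨Bx, hBx, hfx⟩ := rich_iff.mp ((fix_fact I hcon).and (mono_fact I hcon))
  obtain ⟨B₁, hB₁⟩ : ∃ B₁, B₁ = B ++ (Q ++ (Bp ++ (Bs ++ (Bt ++ (Bd ++ Bx))))) := ⟨_, rfl⟩
  have m0 : ∀ φ ∈ B, φ ∈ B₁ := fun φ hφ => by rw [hB₁]; simp [hφ]
  have m1 : ∀ φ ∈ Q, φ ∈ B₁ := fun φ hφ => by rw [hB₁]; simp [hφ]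
  have m2 : ∀ φ ∈ Bp, φ ∈ B₁ := fun φ hφ => by rw [hB₁]; simp [hφ]
  have m3 : ∀ φ ∈ Bs, φ ∈ B₁ := fun φ hφ => by rw [hB₁]; simp [hφ]
  have m4 : ∀ φ ∈ Bt, φ ∈ B₁ := fun φ hφ => by rw [hB₁]; simp [hφ]
  have m5 : ∀ φ ∈ Bd, φ ∈ B₁ := fun φ hφ => by rw [hB₁]; simp [hφ]
  have m6 : ∀ φ ∈ Bx, φ ∈ B₁ := fun φ hφ => by rw [hB₁]; simp [hφ]
  have hB₁t : AllTrue B₁ := by
    intro φ hφ
    rw [hB₁] at hφ
    simp only [List.mem_append] at hφ
    rcases hφ with h | h | h | h | h | h | h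
    · exact hB φ h
    · exact Q_true φ h
    · exact hBp φ h
    · exact hBs φ h
    · exact hBt φ h
    · exact hBd φ h
    · exact hBx φ h
  refine ⟨B₁, hB₁t, m0, m1, fun Φ hΦ => ⟨?_, ?_⟩⟩
  · -- from consistent to true theories
    intro E S hE hS hSc hno
    have hconS : TrueS (conS con S) :=
      ⟨hcon.conS_sentence S, fun e => (hcon.conS_sat hS e).mpr hSc⟩
    have hT : AllTrue (conS con S :: B₁) := by
      intro φ hφ
      rcases List.mem_cons.mp hφ with rfl | hφ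
      · exact hconS
      · exact hB₁t φ hφ
    refine ⟨conS con S :: B₁, hT, fun hs => hno ?_⟩
    exact hpsc Φ hΦ E _ S (fun φ hφ => (hT φ hφ).1) hS
      (Proves.of_subset fun φ hφ => List.mem_cons_of_mem _ (m2 φ hφ))
      (pv_iff.mp (Pv.mem List.mem_cons_self))
      (Proves.trans hE (Proves.of_subset m2)) hs
  intro A₀ E S hA₀ hS hA₀B hE hEs
  obtain ⟨F, hF⟩ : ∃ F, F = fc (XI I) := ⟨_, rfl⟩
  obtain ⟨π, hπ⟩ : ∃ π, π = cj S := ⟨_, rfl⟩
  obtain ⟨κ, hκ⟩ : ∃ κ, κ = K I (cN A₀ π F) := ⟨_, rfl⟩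
  have hπs : Sentence π := by rw [hπ]; exact cj_sentence hS
  have hκs : Sentence κ := by rw [hκ]; exact K_sentence I hcon _
  have hsg : sg I A₀ π F = imp κ π := by rw [hκ]; rfl
  have hσs : Sentence (imp κ π) := sentence_imp hκs hπs
  obtain ⟨hfix, -⟩ := hfx B₁ m6
  obtain ⟨hf1, hf2⟩ := hfix A₀ π F hF
  rw [hsg, ← hκ] at hf1 hf2
  have hA₀B' : ∀ φ ∈ B₁, Pv A₀ φ := fun φ hφ => pv_iff.mpr (hA₀B φ hφ)
  have hEB : ∀ {D : List Fm}, (∀ φ ∈ D, φ ∈ B₁) → Proves E D := fun h =>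
    Proves.trans hE (Proves.of_subset h)
  refine ⟨imp κ π, hσs, ?_, ?_, ?_⟩
  · intro hSt
    refine ⟨hσs, fun e _ => ?_⟩
    rw [hπ]
    exact cj_sat fun φ hφ => (hSt φ hφ).2 e
  · refine hspl Φ hΦ E A₀ (imp κ π) hA₀ hσs (Proves.trans hA₀B (Proves.of_subset m3)) ?_
      (hEB m3) hEs
    refine pv_iff.mp ?_
    have h1 : Pv (neg (imp κ π) :: A₀) κ := Pv.neg_imp_left hκs (Pv.mem List.mem_cons_self)
    have h2 : Pv (neg (imp κ π) :: A₀) (imp κ (conS con (imp κ π :: A₀))) :=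
      Pv.cons (Pv.cut hA₀B' hf1)
    exact Pv.mp h2 h1
  · intro A T hA hAA hEA hTs hTA hW
    have hA1 : ∀ φ ∈ imp κ π :: A₀, Pv A φ := fun φ hφ => pv_iff.mpr (hAA φ hφ)
    have hAB : ∀ φ ∈ B₁, Pv A φ := fun φ hφ =>
      Pv.cut (fun P hP => hA1 P (List.mem_cons_of_mem _ hP)) (hA₀B' φ hφ)
    have hAB' : ∀ {D : List Fm}, (∀ φ ∈ D, φ ∈ B₁) → Proves A D := fun h φ hφ =>
      pv_iff.mp (hAB φ (h φ hφ))
    -- `T` proves `S`
    have t0 : ∀ φ ∈ conS con A :: imp κ π :: A₀, Pv T φ := fun φ hφ => pv_iff.mpr (hTA φ hφ)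
    have t1 : ∀ φ ∈ B₁, Pv T φ := fun φ hφ => Pv.cut (fun P hP =>
      t0 P (List.mem_cons_of_mem _ (List.mem_cons_of_mem _ hP))) (hA₀B' φ hφ)
    have t2 : Pv T (conS con A) := t0 _ List.mem_cons_self
    have hUs : ∀ φ ∈ imp κ π :: A₀, Sentence φ := by
      intro φ hφ
      rcases List.mem_cons.mp hφ with rfl | hφ
      · exact hσs
      · exact hA₀ φ hφ
    have t3 : Pv T (conS con (imp κ π :: A₀)) := by
      obtain ⟨-, hmo⟩ := hfx (conS con A :: B₁) fun φ hφ =>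
        List.mem_cons_of_mem _ (m6 φ hφ)
      have h1 := hmo A (imp κ π :: A₀) hA hUs hA1 (Pv.mem List.mem_cons_self)
      refine Pv.cut (fun P hP => ?_) h1
      rcases List.mem_cons.mp hP with rfl | hP
      · exact t2
      · exact t1 P hP
    have t4 : Pv T κ := Pv.mp (Pv.cut t1 hf2) t3
    have t5 : Pv T π := Pv.mp (t0 _ (List.mem_cons_of_mem _ List.mem_cons_self)) t4
    have t6 : ∀ φ ∈ S, Pv T φ := pv_cj hS (by rw [← hπ]; exact t5)
    -- transfer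
    have s1 : Within con Φ E T := htr Φ hΦ E A T hA hTs (hAB' m4) (hEB m4) hEA hW
    exact hdown Φ hΦ E T S (hEB m5) hTs hS (fun φ hφ => pv_iff.mp (t6 φ hφ)) s1

/-- The dichotomy. -/
theorem dichF {con : Fm} (hcon : IsCon con) {B : List Fm} (hB : AllTrue B) :
    ∃ B₁ : List Fm, AllTrue B₁ ∧ (∀ φ ∈ B, φ ∈ B₁) ∧ (∀ φ ∈ Q, φ ∈ B₁) ∧
      ∀ Φ : Set (ℕ → ℕ), PolyClosed Φ → ∀ E : List Fm, Sents E → Proves E B₁ →
        Optimal con Φ E ∨ Negative con Φ B₁ E := by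
  obtain ⟨B₁, h1, h2, h3, h4⟩ := mainF hcon hB
  refine ⟨B₁, h1, h2, h3, fun Φ hΦ E hE hEB => ?_⟩
  obtain ⟨h4, h5⟩ := h4 Φ hΦ
  by_cases h : ∀ S : List Fm, Sents S → Consis S → Within con Φ E S
  · refine Or.inl ⟨h, fun A hA hAE hc => Within.of_proves hΦ (h _ ?_ hc) hAE⟩
    intro φ hφ
    rcases List.mem_cons.mp hφ with rfl | hφ
    · exact hcon.conS_sentence A
    · exact hA φ hφ
  · push Not at h
    obtain ⟨S, hS, hSc, hno⟩ := h
    obtain ⟨S', hS', hno'⟩ := h4 E S hEB hS hSc hno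
    refine Or.inr fun A₀ hA₀ hA₀B hEA₀ => ?_
    obtain ⟨σ, _, hσ, hσE, hσA⟩ := h5 A₀ E S' hA₀ (fun φ hφ => (hS' φ hφ).1) hA₀B hEB hEA₀
    refine ⟨σ, hσ hS', hσE, fun A hA hAA hEA => ⟨fun hs => hno' ?_, fun hs => hno' ?_⟩⟩
    · refine hσA A (conS con A :: A) hA hAA hEA (fun φ hφ => ?_) (fun φ hφ => ?_) hs
      · rcases List.mem_cons.mp hφ with rfl | hφ
        · exact hcon.conS_sentence A
        · exact hA φ hφ
      · rcases List.mem_cons.mp hφ with rfl | hφ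
        · exact pv_iff.mp (Pv.mem List.mem_cons_self)
        · exact pv_iff.mp (Pv.cons (pv_iff.mpr (hAA φ hφ)))
    · refine hσA A (conS con A :: σ :: A₀) hA hAA hEA (fun φ hφ => ?_)
        (Proves.of_subset fun φ hφ => hφ) hs
      rcases List.mem_cons.mp hφ with rfl | hφ
      · exact hcon.conS_sentence A
      rcases List.mem_cons.mp hφ with rfl | hφ
      · exact (hσ hS').1
      · exact hA₀ φ hφ

/-! ### Two classes -/

lemma polyF_iff {con : Fm} {A T : List Fm} : Within con PolyF A T ↔ Short con A T := by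
  constructor
  · rintro ⟨f, ⟨c, rfl⟩, h⟩
    exact ⟨c, h⟩
  · rintro ⟨c, h⟩
    exact ⟨_, ⟨c, rfl⟩, h⟩

lemma polyClosed_poly : PolyClosed PolyF := by
  constructor
  · rintro f ⟨c, rfl⟩ a b hab
    exact Nat.add_le_add_right (Nat.pow_le_pow_left hab c) c
  · rintro f ⟨d, rfl⟩ c
    have hP : PB fun n => (((n + c) ^ c) ^ d + d + n + c) ^ c :=
      PB.pow ((((PB.pow (PB.pow (PB.id.add (PB.const c)) c) d).add (PB.const d)).add PB.id).add
        (PB.const c)) c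
    obtain ⟨e, he⟩ := pb_le hP
    exact ⟨_, ⟨e, rfl⟩, he⟩

lemma polyClosed_subexp : PolyClosed SubexpF := by
  constructor
  · rintro f ⟨h, -⟩
    exact h
  · rintro f ⟨hm, hf⟩ c
    refine ⟨fun n => (f ((n + c) ^ c) + n + c) ^ c, ⟨?_, ?_⟩, fun n => le_rfl⟩
    · intro a b hab
      have h1 := hm (Nat.pow_le_pow_left (Nat.add_le_add_right hab c) c)
      exact Nat.pow_le_pow_left (by omega) c
    intro ε hε
    rcases Nat.eq_zero_or_pos c with rfl | hc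
    · filter_upwards with n
      simp only [pow_zero, Nat.cast_one]
      exact Real.one_le_rpow (by norm_num) (by positivity)
    have hc' : (0 : ℝ) < c := by exact_mod_cast hc
    -- the values
    have t1 : Tendsto (fun n : ℕ => (n + c) ^ c) atTop atTop :=
      tendsto_atTop_mono (fun n => (Nat.le_self_pow (by omega) (n + c)))
        (tendsto_atTop_mono (fun n => Nat.le_add_right n c) tendsto_id)
    have e1 := t1.eventually (hf (ε / (2 * c)) (by positivity))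
    -- growth
    have t2 : Tendsto (fun n : ℕ => (n : ℝ) ^ (ε / 2)) atTop atTop :=
      (tendsto_rpow_atTop (by positivity)).comp tendsto_natCast_atTop_atTop
    have t3 : Tendsto (fun n : ℕ => (2 : ℝ) ^ ((n : ℝ) ^ (ε / 2)) / n) atTop atTop := by
      have h1 : Tendsto (fun y : ℝ => Real.exp (Real.log 2 * y) / y ^ (2 / ε)) atTop atTop :=
        tendsto_exp_mul_div_rpow_atTop _ _ (Real.log_pos (by norm_num))
      refine (h1.comp t2).congr' ?_
      filter_upwards [eventually_gt_atTop 0] with n hn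
      have hn' : (0 : ℝ) < n := by exact_mod_cast hn
      show Real.exp (Real.log 2 * (n : ℝ) ^ (ε / 2)) / ((n : ℝ) ^ (ε / 2)) ^ (2 / ε) = _
      rw [← Real.rpow_mul hn'.le, show ε / 2 * (2 / ε) = 1 by field_simp, Real.rpow_one,
        Real.rpow_def_of_pos (show (0 : ℝ) < 2 by norm_num)]
    filter_upwards [e1, t2.eventually_ge_atTop (2 * c * (2 : ℝ) ^ (ε / 2) + 2 * c),
      t3.eventually_ge_atTop 2, eventually_ge_atTop c, eventually_ge_atTop 1] with n h1 h2 h3 h4 h5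
    have hn : (0 : ℝ) < n := by exact_mod_cast h5
    have hcn : (c : ℝ) ≤ n := by exact_mod_cast h4
    obtain ⟨y, hy⟩ : ∃ y, y = (n : ℝ) ^ (ε / 2) := ⟨_, rfl⟩
    obtain ⟨z, hz⟩ : ∃ z, z = ((n : ℝ) + c) ^ (ε / 2) := ⟨_, rfl⟩
    have hyz : y ≤ z := by
      rw [hy, hz]
      exact Real.rpow_le_rpow hn.le (by linarith) (by positivity)
    have hzy : z ≤ (2 : ℝ) ^ (ε / 2) * y := by
      rw [hy, hz, ← Real.mul_rpow (by norm_num) hn.le]
      exact Real.rpow_le_rpow (by positivity) (by linarith) (by positivity)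
    have hy2 : y * y = (n : ℝ) ^ ε := by
      rw [hy, ← Real.rpow_add hn]
      congr 1
      ring
    have a1 : ((f ((n + c) ^ c) : ℕ) : ℝ) ≤ 2 ^ z := by
      refine h1.trans (le_of_eq ?_)
      rw [hz]
      congr 1
      push_cast
      rw [← Real.rpow_natCast, ← Real.rpow_mul (by positivity)]
      congr 1
      field_simp
    have a2 : (n : ℝ) + c ≤ 2 ^ z := by
      rw [← hy] at h3
      have h6 : 2 * (n : ℝ) ≤ 2 ^ y := by
        exact (le_div_iff₀ hn).mp h3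
      have h7 : (2 : ℝ) ^ y ≤ 2 ^ z := Real.rpow_le_rpow_of_exponent_le (by norm_num) hyz
      linarith
    have a3 : (((f ((n + c) ^ c) + n + c) ^ c : ℕ) : ℝ) ≤ ((2 : ℝ) ^ (1 + z)) ^ c := by
      push_cast
      refine pow_le_pow_left₀ (by positivity) ?_ c
      rw [Real.rpow_add (by norm_num), Real.rpow_one]
      linarith
    refine a3.trans ?_
    rw [← Real.rpow_natCast, ← Real.rpow_mul (by norm_num)]
    refine Real.rpow_le_rpow_of_exponent_le (by norm_num) ?_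
    rw [← hy2]
    rw [← hy] at h2
    obtain ⟨w, hw⟩ : ∃ w, w = (2 : ℝ) ^ (ε / 2) := ⟨_, rfl⟩
    rw [← hw] at h2 hzy
    have hw0 : 0 < w := by rw [hw]; positivity
    have hy1 : 1 ≤ y := by
      have : (1 : ℝ) ≤ c := by exact_mod_cast hc
      nlinarith
    nlinarith [mul_pos hc' hw0]

end Helper31Con.X81
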