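import Pool.Agent.Helper81_P.Tools
import Pool.Agent.Helper40_H.Tfae

/-!
# Optimality and the positive instances of Q1, in the simulation order
-/

namespace Helper31Con.X81

open Function Filter Fm Amp H5 H40

/-- The main implication. -/
theorem mainP {con : Fm} (hcon : IsCon con) {B : List Fm} (hB : AllTrue B) :
    ∃ B₁ : List Fm, AllTrue B₁ ∧ (∀ φ ∈ B, φ ∈ B₁) ∧ (∀ φ ∈ Q, φ ∈ B₁) ∧
      (∀ E S : List Fm, Proves E B₁ → Sents S → Consis S → ¬ Short con E S →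
        ∃ S' : List Fm, AllTrue S' ∧ ¬ Short con E S') ∧
      ∀ A₀ E S : List Fm, Sents A₀ → Sents S → Proves A₀ B₁ → Proves E B₁ → Short con E A₀ →
        ∃ σ, Sentence σ ∧ (AllTrue S → TrueS σ) ∧ Short con E (σ :: A₀) ∧
          ∀ A : List Fm, Sents A → Proves A (σ :: A₀) → Short con E A →
            Short con A (conS con A :: A) → Short con E S := by
  obtain ⟨I⟩ := exists_ifaceA (θ := bot) hcon (fun k hk => absurd hk (fun h => h))
  obtain ⟨Bp, hBp, hpsc⟩ := short_psc hcon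
  obtain ⟨Bs, hBs, hspl⟩ := short_split hcon
  obtain ⟨Bt, hBt, htr⟩ := short_trans hcon
  obtain ⟨Bd, hBd, -, hdown⟩ := short_down hcon
  obtain ⟨Bx, hBx, hfx⟩ := rich_iff.mp ((fix_fact I hcon).and (mono_fact I hcon))
  obtain ⟨B₁, hB₁⟩ : ∃ B₁, B₁ = B ++ (Q ++ (Bp ++ (Bs ++ (Bt ++ (Bd ++ Bx))))) := ⟨_, rfl⟩
  have m0 : ∀ φ ∈ B, φ ∈ B₁ := fun φ hφ => by rw [hB₁]; simp [hφ]
  have m1 : ∀ φ ∈ Q, φ ∈ B₁ := fun φ hφ => by rw [hB₁]; simp [hφ]
  have m2 : ∀ φ ∈ Bp, φ ∈ B₁ := fun φ hφ => by rw [hB₁]; simp [hφ]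
  have m3 : ∀ φ ∈ Bs, φ ∈ B₁ := fun φ hφ => by rw [hB₁]; simp [hφ]
  have m4 : ∀ φ ∈ Bt, φ ∈ B₁ := fun φ hφ => by rw [hB₁]; simp [hφ]
  have m5 : ∀ φ ∈ Bd, φ ∈ B₁ := fun φ hφ => by rw [hB₁]; simp [hφ]
  have m6 : ∀ φ ∈ Bx, φ ∈ B₁ := fun φ hφ => by rw [hB₁]; simp [hφ]
  have hB₁t : AllTrue B₁ := by
    intro φ hφ
    rw [hB₁] at hφ
    simp only [List.mem_append] at hφ
    rcases hφ with h | h | h | h | h | h | h
    · exact hB φ h
    · exact Q_true φ h
    · exact hBp φ h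
    · exact hBs φ h
    · exact hBt φ h
    · exact hBd φ h
    · exact hBx φ h
  refine ⟨B₁, hB₁t, m0, m1, ?_, ?_⟩
  · -- from consistent to true theories
    intro E S hE hS hSc hno
    have hconS : TrueS (conS con S) :=
      ⟨hcon.conS_sentence S, fun e => (hcon.conS_sat hS e).mpr hSc⟩
    have hT : AllTrue (conS con S :: B₁) := by
      intro φ hφ
      rcases List.mem_cons.mp hφ with rfl | hφ
      · exact hconS
      · exact hB₁t φ hφ
    refine ⟨conS con S :: B₁, hT, fun hs => hno ?_⟩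
    exact hpsc E _ S (fun φ hφ => (hT φ hφ).1) hS
      (Proves.of_subset fun φ hφ => List.mem_cons_of_mem _ (m2 φ hφ))
      (pv_iff.mp (Pv.mem List.mem_cons_self))
      (Proves.trans hE (Proves.of_subset m2)) hs
  intro A₀ E S hA₀ hS hA₀B hE hEs
  obtain ⟨F, hF⟩ : ∃ F, F = fc (XI I) := ⟨_, rfl⟩
  obtain ⟨π, hπ⟩ : ∃ π, π = cj S := ⟨_, rfl⟩
  obtain ⟨κ, hκ⟩ : ∃ κ, κ = K I (cN A₀ π F) := ⟨_, rfl⟩
  have hπs : Sentence π := by rw [hπ]; exact cj_sentence hS
  have hκs : Sentence κ := by rw [hκ]; exact K_sentence I hcon _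
  have hsg : sg I A₀ π F = imp κ π := by rw [hκ]; rfl
  have hσs : Sentence (imp κ π) := sentence_imp hκs hπs
  obtain ⟨hfix, -⟩ := hfx B₁ m6
  obtain ⟨hf1, hf2⟩ := hfix A₀ π F hF
  rw [hsg, ← hκ] at hf1 hf2
  have hA₀B' : ∀ φ ∈ B₁, Pv A₀ φ := fun φ hφ => pv_iff.mpr (hA₀B φ hφ)
  have hEB : ∀ {D : List Fm}, (∀ φ ∈ D, φ ∈ B₁) → Proves E D := fun h =>
    Proves.trans hE (Proves.of_subset h)
  refine ⟨imp κ π, hσs, ?_, ?_, ?_⟩
  · intro hSt
    refine ⟨hσs, fun e _ => ?_⟩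
    rw [hπ]
    exact cj_sat fun φ hφ => (hSt φ hφ).2 e
  · refine hspl E A₀ (imp κ π) hA₀ hσs (Proves.trans hA₀B (Proves.of_subset m3)) ?_ (hEB m3) hEs
    refine pv_iff.mp ?_
    have h1 : Pv (neg (imp κ π) :: A₀) κ := Pv.neg_imp_left hκs (Pv.mem List.mem_cons_self)
    have h2 : Pv (neg (imp κ π) :: A₀) (imp κ (conS con (imp κ π :: A₀))) :=
      Pv.cons (Pv.cut hA₀B' hf1)
    exact Pv.mp h2 h1
  · intro A hA hAA hEA hW
    have hA1 : ∀ φ ∈ imp κ π :: A₀, Pv A φ := fun φ hφ => pv_iff.mpr (hAA φ hφ)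
    have hAB : ∀ φ ∈ B₁, Pv A φ := fun φ hφ =>
      Pv.cut (fun P hP => hA1 P (List.mem_cons_of_mem _ hP)) (hA₀B' φ hφ)
    have hAB' : ∀ {D : List Fm}, (∀ φ ∈ D, φ ∈ B₁) → Proves A D := fun h φ hφ =>
      pv_iff.mp (hAB φ (h φ hφ))
    obtain ⟨T, hT⟩ : ∃ T, T = conS con A :: A := ⟨_, rfl⟩
    rw [← hT] at hW
    have hTs : Sents T := by
      intro φ hφ
      rw [hT] at hφ
      rcases List.mem_cons.mp hφ with rfl | hφ
      · exact hcon.conS_sentence A
      · exact hA φ hφ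
    -- `T` proves `S`
    have t1 : ∀ {φ : Fm}, Pv A φ → Pv T φ := fun h => by rw [hT]; exact Pv.cons h
    have t2 : Pv T (conS con A) := Pv.mem (by rw [hT]; exact List.mem_cons_self)
    have hUs : ∀ φ ∈ imp κ π :: A₀, Sentence φ := by
      intro φ hφ
      rcases List.mem_cons.mp hφ with rfl | hφ
      · exact hσs
      · exact hA₀ φ hφ
    have t3 : Pv T (conS con (imp κ π :: A₀)) := by
      obtain ⟨-, hmo⟩ := hfx (conS con A :: B₁) fun φ hφ =>
        List.mem_cons_of_mem _ (m6 φ hφ)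
      have h1 := hmo A (imp κ π :: A₀) hA hUs hA1 (Pv.mem List.mem_cons_self)
      refine Pv.cut (fun P hP => ?_) h1
      rcases List.mem_cons.mp hP with rfl | hP
      · exact t2
      · exact t1 (hAB P hP)
    have t4 : Pv T κ := Pv.mp (Pv.cut (fun P hP => t1 (hAB P hP)) hf2) t3
    have t5 : Pv T π := Pv.mp (t1 (hA1 _ List.mem_cons_self)) t4
    have t6 : ∀ φ ∈ S, Pv T φ := pv_cj hS (by rw [← hπ]; exact t5)
    -- transfer
    have s1 : Short con E T := htr E A T hA hTs (hAB' m4) (hEB m4) hEA hW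
    exact hdown E T S (hEB m5) hTs hS (fun φ hφ => pv_iff.mp (t6 φ hφ)) s1

/-- The dichotomy. -/
theorem dichP {con : Fm} (hcon : IsCon con) {B : List Fm} (hB : AllTrue B) :
    ∃ B₁ : List Fm, AllTrue B₁ ∧ (∀ φ ∈ B, φ ∈ B₁) ∧ (∀ φ ∈ Q, φ ∈ B₁) ∧
      (∀ E : List Fm, Sents E → Proves E B₁ →
        ((∀ S : List Fm, Sents S → Consis S → Short con E S) ∧
          ∀ A : List Fm, Sents A → Proves A E → Consis (conS con A :: A) →
            Short con A (conS con A :: A)) ∨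
        ∀ A₀ : List Fm, Sents A₀ → Proves A₀ B₁ → Short con E A₀ →
          ∃ σ : Fm, TrueS σ ∧ Short con E (σ :: A₀) ∧
            ∀ A : List Fm, Sents A → Proves A (σ :: A₀) → Short con E A →
              ¬ Short con A (conS con A :: A)) ∧
      ∀ E : List Fm, AllTrue E → Proves E B₁ →
        (∀ S : List Fm, Sents S → Consis S → Short con E S) →
        ¬ ∀ A₀ : List Fm, Sents A₀ → Proves A₀ B₁ → Short con E A₀ →
          ∃ σ : Fm, TrueS σ ∧ Short con E (σ :: A₀) ∧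
            ∀ A : List Fm, Sents A → Proves A (σ :: A₀) → Short con E A →
              ¬ Short con A (conS con A :: A) := by
  obtain ⟨B₁, h1, h2, h3, h4, h5⟩ := mainP hcon hB
  have key : ∀ E A : List Fm, (∀ S : List Fm, Sents S → Consis S → Short con E S) → Sents A →
      Proves A E → Consis (conS con A :: A) → Short con A (conS con A :: A) := by
    intro E A h hA hAE hc
    refine Short.of_proves (h _ ?_ hc) hAE
    intro φ hφ
    rcases List.mem_cons.mp hφ with rfl | hφ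
    · exact hcon.conS_sentence A
    · exact hA φ hφ
  refine ⟨B₁, h1, h2, h3, fun E hE hEB => ?_, fun E hE hEB hopt hneg => ?_⟩
  · by_cases h : ∀ S : List Fm, Sents S → Consis S → Short con E S
    · exact Or.inl ⟨h, fun A hA hAE hc => key E A h hA hAE hc⟩
    · push Not at h
      obtain ⟨S, hS, hSc, hno⟩ := h
      obtain ⟨S', hS', hno'⟩ := h4 E S hEB hS hSc hno
      refine Or.inr fun A₀ hA₀ hA₀B hEA₀ => ?_
      obtain ⟨σ, _, hσ, hσE, hσA⟩ := h5 A₀ E S' hA₀ (fun φ hφ => (hS' φ hφ).1) hA₀B hEB hEA₀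
      exact ⟨σ, hσ hS', hσE, fun A hA hAA hEA hs => hno' (hσA A hA hAA hEA hs)⟩
  · obtain ⟨σ, hσ, -, hσA⟩ := hneg B₁ (fun φ hφ => (h1 φ hφ).1)
      (Proves.of_subset fun φ hφ => hφ)
      (hopt B₁ (fun φ hφ => (h1 φ hφ).1) (H40.true_consistent h1))
    have hA : AllTrue (σ :: (B₁ ++ E)) := by
      intro φ hφ
      rcases List.mem_cons.mp hφ with rfl | hφ
      · exact hσ
      rcases List.mem_append.mp hφ with hφ | hφ
      · exact h1 φ hφ
      · exact hE φ hφ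
    have hA' : AllTrue (conS con (σ :: (B₁ ++ E)) :: σ :: (B₁ ++ E)) := by
      intro φ hφ
      rcases List.mem_cons.mp hφ with rfl | hφ
      · exact H40.true_conS hcon hA
      · exact hA φ hφ
    refine hσA (σ :: (B₁ ++ E)) (fun φ hφ => (hA φ hφ).1) (Proves.of_subset fun φ hφ => ?_)
      (hopt _ (fun φ hφ => (hA φ hφ).1) (H40.true_consistent hA))
      (key E _ hopt (fun φ hφ => (hA φ hφ).1) (Proves.of_subset fun φ hφ => ?_)
        (H40.true_consistent hA'))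
    · rcases List.mem_cons.mp hφ with rfl | hφ
      · exact List.mem_cons_self
      · exact List.mem_cons_of_mem _ (List.mem_append_left _ hφ)
    · exact List.mem_cons_of_mem _ (List.mem_append_right _ hφ)

end Helper31Con.X81
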