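import Pool.Agent.Helper81_P.Tools
import Pool.Agent.Helper81_P.Defs

/-!
# Classes of lengths
-/

namespace Helper31Con.X81

open Function Filter Fm Amp H5 H40

/-! ### Polynomial changes of a function -/

/-- `h` is bounded by a polynomial change of `f`. -/
def PO (f h : ℕ → ℕ) : Prop := ∃ c, ∀ n, h n ≤ (f ((n + c) ^ c) + n + c) ^ c

lemma po_mono {f : ℕ → ℕ} (hf : Monotone f) {c c' : ℕ} (h : c ≤ c') (h' : 1 ≤ c') (n : ℕ) :
    (f ((n + c) ^ c) + n + c) ^ c ≤ (f ((n + c') ^ c') + n + c') ^ c' := by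
  have h1 : (n + c) ^ c ≤ (n + c') ^ c' :=
    (Nat.pow_le_pow_left (by omega) c).trans (Nat.pow_le_pow_right (by omega) h)
  have h2 := hf h1
  exact (Nat.pow_le_pow_left (by omega) c).trans (Nat.pow_le_pow_right (by omega) h)

lemma pb_pow {p : ℕ → ℕ} (hp : PB p) : ∃ c, 1 ≤ c ∧ ∀ n, p n ≤ (n + c) ^ c := by
  obtain ⟨C, q, h⟩ := hp
  refine ⟨C + q + 2, by omega, fun n => (h n).trans ?_⟩
  calc C * (n + 2) ^ q ≤ (n + (C + q + 2)) * (n + (C + q + 2)) ^ q :=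
        Nat.mul_le_mul (by omega) (Nat.pow_le_pow_left (by omega) _)
    _ = (n + (C + q + 2)) ^ (q + 1) := by rw [pow_succ]; ring
    _ ≤ (n + (C + q + 2)) ^ (C + q + 2) := Nat.pow_le_pow_right (by omega) (by omega)

lemma PO.of_pb {f p : ℕ → ℕ} (hp : PB p) : PO f p := by
  obtain ⟨c, _, hc⟩ := pb_pow hp
  exact ⟨c, fun n => (hc n).trans (Nat.pow_le_pow_left (by omega) _)⟩

lemma PO.comp {f p : ℕ → ℕ} (hf : Monotone f) (hp : PB p) : PO f fun n => f (p n) := by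
  obtain ⟨c, h1, hc⟩ := pb_pow hp
  refine ⟨c, fun n => ?_⟩
  have h2 := hf (hc n)
  show f (p n) ≤ _
  calc f (p n) ≤ f ((n + c) ^ c) + n + c := by omega
    _ ≤ (f ((n + c) ^ c) + n + c) ^ c := Nat.le_self_pow (by omega) _

lemma PO.add {f g h : ℕ → ℕ} (hf : Monotone f) (hg : PO f g) (hh : PO f h) :
    PO f fun n => g n + h n := by
  obtain ⟨c₁, h₁⟩ := hg
  obtain ⟨c₂, h₂⟩ := hh
  refine ⟨c₁ + c₂ + 3, fun n => ?_⟩
  have h3 := (h₁ n).trans (po_mono hf (c' := c₁ + c₂ + 1) (by omega) (by omega) n)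
  have h4 := (h₂ n).trans (po_mono hf (c' := c₁ + c₂ + 1) (by omega) (by omega) n)
  have h5 : (n + (c₁ + c₂ + 1)) ^ (c₁ + c₂ + 1) ≤ (n + (c₁ + c₂ + 3)) ^ (c₁ + c₂ + 3) :=
    (Nat.pow_le_pow_left (by omega) _).trans (Nat.pow_le_pow_right (by omega) (by omega))
  have h6 := hf h5
  obtain ⟨X, hX⟩ : ∃ X, X = f ((n + (c₁ + c₂ + 3)) ^ (c₁ + c₂ + 3)) + n + (c₁ + c₂ + 3) := ⟨_, rfl⟩
  have h7 : (f ((n + (c₁ + c₂ + 1)) ^ (c₁ + c₂ + 1)) + n + (c₁ + c₂ + 1)) ^ (c₁ + c₂ + 1) ≤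
      X ^ (c₁ + c₂ + 2) :=
    (Nat.pow_le_pow_left (by omega) _).trans (Nat.pow_le_pow_right (by omega) (by omega))
  rw [← hX]
  calc g n + h n ≤ 2 * X ^ (c₁ + c₂ + 2) := by omega
    _ ≤ X * X ^ (c₁ + c₂ + 2) := Nat.mul_le_mul_right _ (by omega)
    _ = X ^ (c₁ + c₂ + 3) := by ring

lemma PO.pow {f h : ℕ → ℕ} (hf : Monotone f) (hh : PO f h) (k : ℕ) : PO f fun n => h n ^ k := by
  obtain ⟨c, hc⟩ := hh
  refine ⟨c * k + c + 1, fun n => ?_⟩
  have h5 : (n + c) ^ c ≤ (n + (c * k + c + 1)) ^ (c * k + c + 1) :=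
    (Nat.pow_le_pow_left (by omega) _).trans (Nat.pow_le_pow_right (by omega) (by
      have : 0 ≤ c * k := Nat.zero_le _
      omega))
  have h6 := hf h5
  calc h n ^ k ≤ ((f ((n + c) ^ c) + n + c) ^ c) ^ k := Nat.pow_le_pow_left (hc n) k
    _ = (f ((n + c) ^ c) + n + c) ^ (c * k) := by rw [← pow_mul]
    _ ≤ (f ((n + (c * k + c + 1)) ^ (c * k + c + 1)) + n + (c * k + c + 1)) ^ (c * k) :=
        Nat.pow_le_pow_left (by omega) _
    _ ≤ _ := Nat.pow_le_pow_right (by omega) (by omega)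

/-! ### Rules for `Within` -/

variable {con : Fm} {Φ : Set (ℕ → ℕ)}

lemma Within.of_po (hΦ : PolyClosed Φ) {f h : ℕ → ℕ} (hf : f ∈ Φ) (hh : PO f h) {A T : List Fm}
    (hp : ∀ n, Prov A (h n) (conN con T n)) : Within con Φ A T := by
  obtain ⟨c, hc⟩ := hh
  obtain ⟨g, hg, hg'⟩ := hΦ.2 f hf c
  exact ⟨g, hg, fun n => (hp n).mono ((hc n).trans (hg' n))⟩

/-- A theory that proves `E` has the short proofs that `E` has. -/
lemma Within.of_proves (hΦ : PolyClosed Φ) {A E T : List Fm} (h : Within con Φ E T)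
    (hA : Proves A E) : Within con Φ A T := by
  obtain ⟨f, hf, hc⟩ := h
  obtain ⟨C, hC⟩ := prov_cut_const (T := A) (Ps := E) hA
  have hP : PO f fun n => f n + C :=
    (PO.comp (hΦ.1 f hf) PB.id).add (hΦ.1 f hf) (PO.of_pb (PB.const C))
  exact Within.of_po hΦ hf hP fun n =>
    hC _ _ (Prov.monoT (hc n) fun φ hφ => List.mem_append_left _ hφ)

lemma within_psc (hcon : IsCon con) : ∃ B₁ : List Fm, AllTrue B₁ ∧
    ∀ Φ, PolyClosed Φ → ∀ A T U : List Fm, Sents T → Sents U → Proves T B₁ →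
      (∃ k, Prov T k (conS con U)) → Proves A B₁ → Within con Φ A T → Within con Φ A U := by
  obtain ⟨B₁, h1, h2⟩ := psc hcon
  refine ⟨B₁, h1, fun Φ hΦ A T U hT hU hTB hTU hAB hs => ?_⟩
  obtain ⟨f, hf, hc'⟩ := hs
  have hm := hΦ.1 f hf
  obtain ⟨c, d, hcd⟩ := h2 T U hT hU hTB hTU
  obtain ⟨C, hC⟩ := prov_cut_const (T := A) (Ps := B₁) hAB
  have hP : PO f fun n => (n + f ((n + c) ^ c) + d) ^ d + C :=
    ((((PO.of_pb PB.id).add hm (PO.comp hm (PB.pow (PB.id.add (PB.const c)) c))).add hm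
      (PO.of_pb (PB.const d))).pow hm d).add hm (PO.of_pb (PB.const C))
  exact Within.of_po hΦ hf hP fun n => hC _ _ (hcd (B₁ ++ A)
    (fun φ hφ => List.mem_append_left _ hφ) n _
    (Prov.monoT (hc' _) fun φ hφ => List.mem_append_right _ hφ))

lemma within_split (hcon : IsCon con) : ∃ B₁ : List Fm, AllTrue B₁ ∧
    ∀ Φ, PolyClosed Φ → ∀ (A T : List Fm) (σ : Fm), Sents T → Sentence σ → Proves T B₁ →
      (∃ k, Prov (neg σ :: T) k (conS con (σ :: T))) →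
      Proves A B₁ → Within con Φ A T → Within con Φ A (σ :: T) := by
  obtain ⟨B₁, h1, h2⟩ := split hcon
  refine ⟨B₁, h1, fun Φ hΦ A T σ hT hσ hTB hTU hAB hs => ?_⟩
  obtain ⟨f, hf, hc'⟩ := hs
  have hm := hΦ.1 f hf
  obtain ⟨c, d, hcd⟩ := h2 T σ hT hσ hTB hTU
  obtain ⟨C, hC⟩ := prov_cut_const (T := A) (Ps := B₁) hAB
  have hP : PO f fun n => (n + f ((n + c) ^ c) + d) ^ d + C :=
    ((((PO.of_pb PB.id).add hm (PO.comp hm (PB.pow (PB.id.add (PB.const c)) c))).add hm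
      (PO.of_pb (PB.const d))).pow hm d).add hm (PO.of_pb (PB.const C))
  exact Within.of_po hΦ hf hP fun n => hC _ _ (hcd (B₁ ++ A)
    (fun φ hφ => List.mem_append_left _ hφ) n _
    (Prov.monoT (hc' _) fun φ hφ => List.mem_append_right _ hφ))

/-- `E` simulates `T` if `E` simulates `A` and `A` simulates `T` with polynomial lengths. -/
lemma within_trans (hcon : IsCon con) : ∃ B₁ : List Fm, AllTrue B₁ ∧
    ∀ Φ, PolyClosed Φ → ∀ E A T : List Fm, Sents A → Sents T → Proves A B₁ → Proves E B₁ →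
      Within con Φ E A → Short con A T → Within con Φ E T := by
  obtain ⟨B₁, h1, h2⟩ := sim hcon
  refine ⟨B₁, h1, fun Φ hΦ E A T hA hT hAB hEB hs hs' => ?_⟩
  obtain ⟨f, hf, hc₂⟩ := hs
  obtain ⟨c₁, hc₁⟩ := hs'
  have hm := hΦ.1 f hf
  obtain ⟨c, d, hcd⟩ := h2 A T hA hT hAB
  obtain ⟨C, hC⟩ := prov_cut_const (T := E) (Ps := B₁) hEB
  have hk : PB fun m => m ^ c₁ + c₁ := (PB.pow PB.id c₁).add (PB.const c₁)
  have hP : PO f fun m => (m + (m ^ c₁ + c₁) + f ((m + (m ^ c₁ + c₁) + c) ^ c) + d) ^ d + C :=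
    ((((PO.of_pb (PB.id.add hk)).add hm (PO.comp hm (PB.pow ((PB.id.add hk).add
      (PB.const c)) c))).add hm (PO.of_pb (PB.const d))).pow hm d).add hm (PO.of_pb (PB.const C))
  exact Within.of_po hΦ hf hP fun m => hC _ _ (hcd (B₁ ++ E)
    (fun φ hφ => List.mem_append_left _ hφ) m _ _ (hc₁ m)
    (Prov.monoT (hc₂ _) fun φ hφ => List.mem_append_right _ hφ))

/-- Short proofs of the finite consistency of a theory from those of a stronger one. -/
lemma within_down (hcon : IsCon con) : ∃ B₁ : List Fm, AllTrue B₁ ∧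
    ∀ Φ, PolyClosed Φ → ∀ A T S : List Fm, Proves A B₁ → Sents T → Sents S → Proves T S →
      Within con Φ A T → Within con Φ A S := by
  obtain ⟨I⟩ := exists_ifaceA (θ := bot) hcon (fun k hk => absurd hk (fun h => h))
  obtain ⟨Bd, hBd, hdown⟩ := down I hcon
  obtain ⟨cA, hatom⟩ := atom_fact I hcon
  obtain ⟨Bx, hBx, hfx⟩ := rich_iff.mp hatom
  obtain ⟨B₁, hB₁⟩ : ∃ B₁, B₁ = Bd ++ Bx := ⟨_, rfl⟩
  have m4 : ∀ φ ∈ Bd, φ ∈ B₁ := fun φ hφ => by rw [hB₁]; simp [hφ]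
  have m5 : ∀ φ ∈ Bx, φ ∈ B₁ := fun φ hφ => by rw [hB₁]; simp [hφ]
  have hB₁t : ∀ φ ∈ B₁, TrueS φ := by
    intro φ hφ
    rw [hB₁] at hφ
    simp only [List.mem_append] at hφ
    rcases hφ with h | h
    · exact hBd φ h
    · exact hBx φ h
  refine ⟨B₁, hB₁t, fun Φ hΦ A T S hAB hT hS hTS hs => ?_⟩
  obtain ⟨f, hf, hc'⟩ := hs
  have hm := hΦ.1 f hf
  obtain ⟨L, hL1, hL2⟩ := exists_list (T := T) (Ps := S) hTS
  have hBA : ∀ φ ∈ B₁, φ ∈ B₁ ++ A := fun φ hφ => List.mem_append_left _ hφ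
  have hat := hfx (B₁ ++ A) fun φ hφ => hBA φ (m5 φ hφ)
  obtain ⟨c, hc⟩ := hdown (B₁ ++ A) A T S L (fun β hβ => hBA β (m4 β hβ)) hT hS hL1
    (isProof_of_subset hL2) (fun u => u + cA * (u + lc T + 1) + cA)
    (((PB.id.add ((PB.const cA).mul ((PB.id.add (PB.const _)).add (PB.const 1)))).add
      (PB.const cA))) (fun m k hk => by
      have hk' : Prov (B₁ ++ A) k (conN con T m) :=
        Prov.monoT hk fun φ hφ => List.mem_append_right _ hφ
      have h2 : cA * (m + lc T + 1) ≤ cA * (m + k + lc T + 1) :=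
        Nat.mul_le_mul_left _ (by omega)
      exact (hat T m k hk').mono (by omega) (by omega))
  obtain ⟨C, hC⟩ := prov_cut_const (T := A) (Ps := B₁) hAB
  have hP : PO f (fun n => (n + f (n + c) + c) ^ c + C) :=
    ((((PO.of_pb PB.id).add hm (PO.comp hm (PB.id.add (PB.const c)))).add hm
      (PO.of_pb (PB.const c))).pow hm c).add hm (PO.of_pb (PB.const C))
  exact Within.of_po hΦ hf hP fun n => hC _ _ (hc n _ (hc' (n + c)))

end Helper31Con.X81
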