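import Pool.Agent.Helper81_P.Ctx

/-!
# Refutation of false finite consistency statements with polynomially many symbols
-/

namespace Helper31Con.Amp

open Function Filter Fm

variable {con θ : Fm} (I : IfaceS (RA con θ))

lemma prov_of_mem {T l : List Fm} {φ : Fm} (h : IsProof T l) (hφ : φ ∈ l) :
    Prov T (plen l) φ := by
  induction l with
  | nil => simp at hφ
  | cons ψ l ih =>
    rcases List.mem_cons.mp hφ with rfl | hφ
    · exact ⟨l, h, le_rfl⟩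
    · obtain ⟨L, h1, h2⟩ := ih h.1 hφ
      exact ⟨L, h1, h2.trans (by rw [plen_cons]; omega)⟩

lemma me_nd {a f v : ℕ} (h : LSR a) (h1 : a = nd f v) : MeR a f := by
  obtain ⟨l, rfl, hl⟩ := h
  cases l with
  | nil =>
    have := nd_pos f v
    have h3 : (0 : ℕ) = nd f v := h1
    omega
  | cons φ l =>
    have h2 : nd (fc φ) (lc l) = nd f v := h1
    obtain ⟨rfl, _⟩ := nd_inj.mp h2
    exact ⟨φ :: l, φ, rfl, rfl, List.mem_cons_self⟩

lemma ls_tail {a f v : ℕ} (h : LSR a) (h1 : a = nd f v) : LSR v := by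
  obtain ⟨l, rfl, hl⟩ := h
  cases l with
  | nil =>
    have := nd_pos f v
    have h3 : (0 : ℕ) = nd f v := h1
    omega
  | cons φ l =>
    have h2 : nd (fc φ) (lc l) = nd f v := h1
    obtain ⟨_, rfl⟩ := nd_inj.mp h2
    exact ⟨l, rfl, fun ψ hψ => hl ψ (List.mem_cons_of_mem _ hψ)⟩

lemma me_nd_tail {a f v g : ℕ} (h : LSR a) (h1 : a = nd f v) (h2 : MeR v g) : MeR a g := by
  obtain ⟨l, rfl, hl⟩ := h
  cases l with
  | nil =>
    have := nd_pos f v
    have h3 : (0 : ℕ) = nd f v := h1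
    omega
  | cons φ l =>
    have h3 : nd (fc φ) (lc l) = nd f v := h1
    obtain ⟨_, rfl⟩ := nd_inj.mp h3
    obtain ⟨L, ψ, e1, rfl, h4⟩ := h2
    obtain rfl := lc_inj e1
    exact ⟨φ :: l, ψ, rfl, rfl, List.mem_cons_of_mem _ h4⟩

/-- Members of a list of sentences. -/
lemma ev_mu : Ev fun X => ∀ (U : List Fm) (n : ℕ), lc U + 1 ≤ X.S →
    X.E n (I.A 11 (nT (lc U)) o o o) → ∀ ψ ∈ U,
      X.E ((n + 2 * U.length + 2) * U.length) (I.A 12 (nT (lc U)) (nT (fc ψ)) o o) := by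
  have r1 := ev_rule I [.rl 11 (x 0) o o o, .eq (x 0) (ndT (x 1) (x 2))] (.rl 12 (x 0) (x 1) o o)
    (by simp [At.Wf, Al]) (fun e h h1 => by
      have h' : (x 0).val e = (ndT (x 1) (x 2)).val e := h1
      rw [val_ndT] at h'
      exact me_nd h h')
  have r2 := ev_rule I [.rl 11 (x 0) o o o, .eq (x 0) (ndT (x 1) (x 2)), .rl 12 (x 2) (x 3) o o]
    (.rl 12 (x 0) (x 3) o o) (by simp [At.Wf, Al]) (fun e h h1 h2 => by
      have h' : (x 0).val e = (ndT (x 1) (x 2)).val e := h1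
      rw [val_ndT] at h'
      exact me_nd_tail h h' h2)
  have r3 := ev_rule I [.rl 11 (x 0) o o o, .eq (x 0) (ndT (x 1) (x 2))] (.rl 11 (x 2) o o o)
    (by simp [At.Wf, Al]) (fun e h h1 => by
      have h' : (x 0).val e = (ndT (x 1) (x 2)).val e := h1
      rw [val_ndT] at h'
      exact ls_tail h h')
  refine ((r1.and r2).and (r3.and ev_n1)).mono ?_
  rintro X ⟨⟨r1, r2⟩, ⟨r3, hn⟩⟩ A
  induction A with
  | nil => intro n _ _ ψ h; simp at h
  | cons φ A ih =>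
    intro n hS h11 ψ hψ
    have h0 : lc (φ :: A) = nd (fc φ) (lc A) := rfl
    rw [h0] at hS h11 ⊢
    have h1 := lt_nd_l (fc φ) (lc A)
    have h2 := lt_nd_r (fc φ) (lc A)
    have h3 := hn (fc φ) (lc A) hS
    have ok1 : X.Ok (nT (nd (fc φ) (lc A))) := X.ok_num hS
    have ok2 : X.Ok (nT (fc φ)) := X.ok_num (by omega)
    have ok3 : X.Ok (nT (lc A)) := X.ok_num (by omega)
    have h5 : (n + 2 * (A.length + 1) + 2) * (A.length + 1) =
        ((n + 2) + 2 * A.length + 2) * A.length + (n + 2 * A.length + 4) := by ring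
    rcases List.mem_cons.mp hψ with rfl | hψ
    · exact (r1 (tl [nT (nd (fc ψ) (lc A)), nT (fc ψ), nT (lc A)]) [n, 1] (Cx.ok3 ok1 ok2 ok3)
        (.cons h11 (.cons h3 .nil))).mono (by
          simp only [List.sum_cons, List.sum_nil, List.length_cons]; omega)
    · have h4 := mem_le_lc hψ
      have h6 := r3 (tl [nT (nd (fc φ) (lc A)), nT (fc φ), nT (lc A)]) [n, 1]
        (Cx.ok3 ok1 ok2 ok3) (.cons h11 (.cons h3 .nil))
      have h7 := ih (n + 2) (by omega) (h6.mono (by simp)) ψ hψ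
      exact (r2 (tl [nT (nd (fc φ) (lc A)), nT (fc φ), nT (lc A), nT (fc ψ)]) [n, 1, _]
        (Cx.ok4 ok1 ok2 ok3 (X.ok_num (by omega)))
        (.cons h11 (.cons h3 (.cons h7 .nil)))).mono (by
          simp only [List.sum_cons, List.sum_nil, List.length_cons]; omega)

/-- Rewriting of the second argument. -/
lemma ev_mre : Ev fun X => ∀ (a y z : Tm) (n m : ℕ), X.Ok a → X.Ok y → X.Ok z →
    X.E n (I.A 12 a y o o) → X.E m (Fm.eq z y) → X.E (n + m + 1) (I.A 12 a z o o) := by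
  have r := ev_rule I [.rl 12 (x 0) (x 1) o o, .eq (x 2) (x 1)] (.rl 12 (x 0) (x 2) o o)
    (by simp [At.Wf, Al]) (fun e h1 h2 => by
      have h1' : MeR (e 0) (e 1) := h1
      have h2' : e 2 = e 1 := h2
      show MeR (e 0) (e 2)
      rw [h2']; exact h1')
  refine r.mono ?_
  intro X r a y z n m ha hy hz h1 h2
  exact (r (tl [a, y, z]) [n, m] (Cx.ok3 ha hy hz) (.cons h1 (.cons h2 .nil))).mono (by simp)

/-- A list of sentences is a list. -/
lemma ev_lsl : Ev fun X => ∀ (a : Tm) (n : ℕ), X.Ok a → X.E n (I.A 11 a o o o) →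
    X.E (n + 1) (I.A 10 a o o o) := by
  have r := ev_rule I [.rl 11 (x 0) o o o] (.rl 10 (x 0) o o o)
    (by simp [At.Wf, Al]) (fun e h => by
      obtain ⟨l, h1, _⟩ : LSR (e 0) := h
      exact ⟨l, h1⟩)
  refine r.mono ?_
  intro X r a n ha h1
  exact (r (tl [a]) [n] (Cx.ok1 ha) (.cons h1 .nil)).mono (by simp)

/-- A refutation contradicts finite consistency. -/
lemma ev_bad2 (hcon : IsCon con) : Ev fun X => ∀ (p a r y b d : Tm) (n₁ n₂ n₃ n₄ n₅ n₆ n₇ : ℕ),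
    X.Ok p → X.Ok a → X.Ok r → X.Ok y → X.Ok b → X.Ok d →
    X.E n₁ (I.A 13 p a o o) → X.E n₂ (I.A 14 p r o o) → X.E n₃ (I.A 12 p y o o) →
    X.E n₄ (Fm.eq y (ndT (nT 5) o)) → X.E n₅ (I.A 11 a o o o) → X.E n₆ (Fm.eq b (.add r d)) →
    X.E n₇ (I.A 23 a b o o) →
    X.E (n₁ + n₂ + n₃ + n₄ + n₅ + n₆ + n₇ + 1) (neg (Fm.eq o o)) := by
  have r := ev_rule I [.rl 13 (x 0) (x 1) o o, .rl 14 (x 0) (x 2) o o, .rl 12 (x 0) (x 3) o o,
    .n1 (x 3) 5 o, .rl 11 (x 1) o o o, .eq (x 4) (.add (x 2) (x 5)), .rl 23 (x 1) (x 4) o o]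
    (.ne o o) (by simp [At.Wf, Al]) (fun e h1 h2 h3 h4 h5 h6 h7 => by
      obtain ⟨l, T, e1, e2, hl⟩ : PfR (e 0) (e 1) := h1
      obtain ⟨l', e3, e4⟩ : PLR (e 0) (e 2) := h2
      obtain rfl := lc_inj (e1.symm.trans e3)
      obtain ⟨l', φ, e5, e6, e7⟩ : MeR (e 0) (e 3) := h3
      obtain rfl := lc_inj (e1.symm.trans e5)
      have h4' : e 3 = nd 5 0 := h4
      obtain rfl : Fm.bot = φ := fc_inj (h4'.symm.trans e6)
      obtain ⟨T', e8, hT⟩ : LSR (e 1) := h5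
      obtain rfl := lc_inj (e2.symm.trans e8)
      have h6' : e 4 = e 2 + e 5 := h6
      have h7' : cP con (e 1) (e 4) := h7
      rw [e2] at h7'
      exact absurd ((prov_of_mem hl e7).mono (by omega)) ((cP_lc hcon hT _).mp h7'))
  refine r.mono ?_
  intro X r p a rr y b d n₁ n₂ n₃ n₄ n₅ n₆ n₇ hp ha hr hy hb hd h1 h2 h3 h4 h5 h6 h7
  exact (r (tl [p, a, rr, y, b, d]) [n₁, n₂, n₃, n₄, n₅, n₆, n₇] (Cx.ok6 hp ha hr hy hb hd)
    (.cons h1 (.cons h2 (.cons h3 (.cons h4 (.cons h5 (.cons h6 (.cons h7 .nil)))))))).mono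
    (by simp; omega)

/-- Refutation of false finite consistency statements, line version. -/
lemma ref_pr (hcon : IsCon con) :
    ∃ B₀ : List Fm, (∀ β ∈ B₀, TrueS β) ∧ ∃ F : ℕ → ℕ, PB F ∧ Monotone F ∧ ∀ (B U : List Fm) (m : ℕ),
      (∀ β ∈ B₀, β ∈ B) → conN con U m ∈ B → I.A 11 (nT (lc U)) o o o ∈ B → Prov U m .bot →
      Pr B (F (m + lc U + (conN con U m).len + (I.A 11 (nT (lc U)) o o o).len))
        (F (m + lc U + (conN con U m).len + (I.A 11 (nT (lc U)) o o o).len)) .bot := by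
  obtain ⟨c1, h1⟩ := horn1 (α := con) (β := I.A 23 (x 0) (x 1) o o) (fun e h1 => by
    rw [I.sat _ _ _ _ _ _ (by simp [Al]) (by simp [Al]) (by simp) (by simp)]
    exact (hcon.cP_iff e).mp h1)
  obtain ⟨B₀, hB₀, c₀, hX⟩ := ((((ev_pfl I).and (ev_pll I)).and ((ev_mel I).and (ev_mu I))).and
    (((ev_mre I).and (ev_lsl I)).and ((ev_bad2 I hcon).and (ev_codeF I)))).and
    ((ev_hyp.and ev_sum).and ((ev_pr PB.id).and (ev_rich h1)))
  -- the functions
  set K : ℕ → ℕ := fun u => u + 3 with hK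
  set S₀ : ℕ → ℕ := fun u => u + c1 * (u + 1) + c1 + 1 with hS₀
  set Sf : ℕ → ℕ := fun u => 12 * (c₀ + 2 * K u) + 100 + S₀ u with hSf
  set Cf : ℕ → ℕ := fun u => (Sf u + c₀) ^ c₀ with hCf
  set Kc : ℕ → ℕ := fun u => (2 * u + 3) * u + 4 * K u + 2 with hKc
  set Nf : ℕ → ℕ := fun u => (cs2 u + Kc u + 2 * ((2 * u + 2) * u + 1) + 4) * u + Kc u + 1 +
    ((3 * u + 3) * u + 1) + ((2 * u + 2) * u + 1) + 6 with hNf
  have hKP : PB K := PB.id.add (PB.const _)
  have hS₀P : PB S₀ := ((PB.id.add ((PB.const _).mul (PB.id.add (PB.const 1)))).add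
    (PB.const _)).add (PB.const 1)
  have hSP : PB Sf := (((PB.const 12).mul ((PB.const _).add ((PB.const 2).mul hKP))).add
    (PB.const 100)).add hS₀P
  have hCP : PB Cf := PB.pow (hSP.add (PB.const _)) c₀
  have hcP : PB cs2 := ((PB.const 40).mul (PB.id.add (PB.const 1))).mul (PB.id.add (PB.const 1))
  have hKcP : PB Kc := (((((PB.const 2).mul PB.id).add (PB.const 3)).mul PB.id).add
    ((PB.const 4).mul hKP)).add (PB.const 2)
  have hcMP : PB fun u => (2 * u + 2) * u + 1 :=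
    ((((PB.const 2).mul PB.id).add (PB.const 2)).mul PB.id).add (PB.const 1)
  have hNP : PB Nf := (((((((((hcP.add hKcP).add ((PB.const 2).mul hcMP)).add
    (PB.const 4)).mul PB.id).add hKcP).add (PB.const 1)).add
    (((((PB.const 3).mul PB.id).add (PB.const 3)).mul PB.id).add (PB.const 1))).add hcMP).add
    (PB.const 6))
  obtain ⟨F, hF, hFm, hFle⟩ := PB.exists_mono (f := fun u => Cf u * Nf u + 10 * K u + 4 * Cf u + 5
    + 4) (((((hCP.mul hNP).add ((PB.const 10).mul hKP)).add ((PB.const 4).mul hCP)).add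
    (PB.const 5)).add (PB.const 4))
  refine ⟨B₀, hB₀, F, hF, hFm, fun B U m hB hcU h11 hp => ?_⟩
  obtain ⟨L, hL, hlen⟩ := hp
  obtain ⟨u, hu⟩ : ∃ u, u = m + lc U + (conN con U m).len + (I.A 11 (nT (lc U)) o o o).len :=
    ⟨_, rfl⟩
  rw [← hu]
  have hKu : K u = u + 3 := rfl
  have hS₀u : S₀ u = u + c1 * (u + 1) + c1 + 1 := rfl
  have hSu : Sf u = 12 * (c₀ + 2 * K u) + 100 + S₀ u := rfl
  have htot : plen ((Fm.bot :: L) ++ []) + tlen [Tm.zero] ≤ K u := by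
    have h1 : tlen [Tm.zero] = 1 := by simp [tlen, Tm.len]
    rw [h1, hKu, List.append_nil]
    omega
  obtain ⟨X, hXB, hXW, hXS, hXC, hctx, helim⟩ :=
    exists_ctx B c₀ (S₀ u) (Fm.bot :: L) [] [Tm.zero] (K u) htot
  rw [← hSu] at hXS
  have hXC' : X.C = Cf u := by rw [hXC, hXS]
  obtain ⟨⟨⟨⟨hpfl, hpll⟩, ⟨hmel, hmu⟩⟩, ⟨⟨hmre, hlsl⟩, ⟨hbad, hcode⟩⟩⟩,
    ⟨⟨hhyp, hsum⟩, ⟨hpr, h1⟩⟩⟩ := hX X (by rw [hXB]; exact hB) (by rw [hXW]) (by rw [hXC])
  obtain ⟨V, w, hVF, hVT, hVlen, hLN⟩ := hctx hhyp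
  have okn : ∀ n, n ≤ u → X.Ok (nT n) := fun n hn => X.ok_num (by rw [hXS]; omega)
  have hTz : V.T .zero := hVT _ (by simp)
  have hFL : ∀ ψ ∈ Fm.bot :: L, V.F ψ ∧ ψ.len ≤ u := fun ψ hψ =>
    ⟨hVF ψ (List.mem_append_left _ hψ), (len_le_plen hψ).trans (by omega)⟩
  have hlenL : (Fm.bot :: L).length ≤ u := (length_le_plen _).trans (by omega)
  have hU : U.length ≤ u := (length_le_lc U).trans (by omega)
  -- the theory
  have h3 : X.E 1 (I.A 11 (nT (lc U)) o o o) := hpr _ (by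
    rw [hXB]
    exact (Pr.mem h11 (M := X.S) (by rw [hXS]; omega)).mono (by
      show 1 ≤ X.S; rw [hXS]; omega) le_rfl)
  have hAm : ∀ ψ ∈ U, V.F ψ → X.E (Kc u) (I.A 12 (nT (lc U)) (V.f ψ) o o) := by
    intro ψ hψ hF
    have q1 := mem_le_lc hψ
    have q2 := hVlen _ hF
    have q3 := hmu U 1 (by rw [hXS]; omega) h3 ψ hψ
    have q4 := hcode V ψ hF (by rw [hXS]; omega)
    refine (hmre _ _ _ _ _ (okn _ (by omega)) (okn _ (by omega)) (V.okf ψ hF) q3 q4).mono ?_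
    have q5 : (1 + 2 * U.length + 2) * U.length ≤ (2 * u + 3) * u :=
      Nat.mul_le_mul (by omega) hU
    have q6 : Kc u = (2 * u + 3) * u + 4 * K u + 2 := rfl
    omega
  have h10 : X.E (Kc u) (I.A 10 (nT (lc U)) o o o) :=
    (hlsl _ _ (okn _ (by omega)) h3).mono (by
      have q6 : Kc u = (2 * u + 3) * u + 4 * K u + 2 := rfl
      omega)
  have p1 := hpfl V w (nT (lc U)) U u (Kc u) u (Fm.bot :: L) (okn _ (by omega)) hTz hLN hL hFL
    hlenL h10 hAm
  have p2 := hpll V w u (Fm.bot :: L) hLN hFL (by rw [hXS]; omega)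
  have p3 := hmel V w u (Fm.bot :: L) hLN hFL _ List.mem_cons_self
  have p4 : X.E 1 (Fm.eq (V.f .bot) (ndT (nT 5) o)) := V.bot (hFL _ List.mem_cons_self).1
  obtain ⟨d, hd⟩ := Nat.exists_eq_add_of_le hlen
  have p6 := hsum _ _ _ hd (by rw [hXS]; omega)
  have p7 : X.E 1 (I.A 23 (nT (lc U)) (nT m) o o) := hpr _ (by
    have a2 := h1 (as [lc U, m]) u X.S 1 (as_le (by
      simp only [List.forall_mem_cons, List.not_mem_nil, IsEmpty.forall_iff, implies_true,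
        and_true]
      omega)) (by rw [hXS]; omega) (by
        rw [hXB, ← hcon.conN_eq]
        exact Pr.mem hcU (by rw [hXS]; omega))
    rw [I.cl _ _ _ _ _ _ (by simp [Al]) (by simp [Al]) (by simp) (by simp)] at a2
    exact a2.mono (by show c1 + 1 ≤ X.S; rw [hXS]; omega) (by show X.S ≤ X.S; omega))
  have key := hbad (w (Fm.bot :: L)) (nT (lc U)) (nT (plen (Fm.bot :: L))) (V.f .bot) (nT m)
    (nT d) _ _ _ _ _ _ _ hLN.ok (okn _ (by omega)) (okn _ (by omega))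
    (V.okf _ (hFL _ List.mem_cons_self).1) (okn _ (by omega)) (okn _ (by omega))
    p1 p2 p3 p4 h3 p6 p7
  have key2 : X.E (Nf u) (neg (Fm.eq o o)) := by
    refine key.mono ?_
    have a1 : Nf u = (cs2 u + Kc u + 2 * ((2 * u + 2) * u + 1) + 4) * u + Kc u + 1 +
      ((3 * u + 3) * u + 1) + ((2 * u + 2) * u + 1) + 6 := rfl
    have a2 : cL u (Kc u) u * (Fm.bot :: L).length ≤
        (cs2 u + Kc u + 2 * ((2 * u + 2) * u + 1) + 4) * u := Nat.mul_le_mul le_rfl hlenL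
    have a3 : (3 * u + 3) * (Fm.bot :: L).length ≤ (3 * u + 3) * u := Nat.mul_le_mul le_rfl hlenL
    have a4 : cM u (Fm.bot :: L).length ≤ (2 * u + 2) * u + 1 := cM_mono u hlenL
    omega
  -- elimination of the names
  have key3 := helim _ _ (by
    intro i hi
    rcases hi with (h | h) | h
    · exact absurd h (by simp [Tm.Has])
    · exact absurd h (by simp [Tm.Has])
    · exact absurd h (by simp [Fm.Free])) key2
  rw [hXC'] at key3
  have hFu : Cf u * Nf u + 10 * K u + 4 * Cf u + 5 + 4 ≤ F u := hFle u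
  refine (Pr.mp (M := 4 * Cf u + 5) key3 (Pr.eqRefl (by simp only [Tm.len]; omega))).mono ?_ ?_
  · omega
  · omega

end Helper31Con.Amp
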