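import Pool.Agent.Helper81_P.Ref

/-!
# Simulation: short proofs of `Con_T(m)` in `A` and of `Con_A` in `E` give short proofs in `E`
-/

namespace Helper31Con.Amp

open Function Filter Fm

variable {con θ : Fm} (I : IfaceS (RA con θ))

lemma len_conN_le (hcon : IsCon con) {U : List Fm} {m u : ℕ} (h : m + lc U ≤ u) :
    (conN con U m).len ≤ con.len * (u + 1) := by
  rw [hcon.conN_eq]
  exact Fm.len_cl (as_le (by
    simp only [List.forall_mem_cons, List.not_mem_nil, IsEmpty.forall_iff, implies_true, and_true]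
    omega))

lemma conN_sentence (hcon : IsCon con) (U : List Fm) (m : ℕ) : Fm.Sentence (conN con U m) := by
  rw [hcon.conN_eq]
  exact Fm.cl_sentence _ _

/-- Refutation of false finite consistency statements. -/
lemma ref_core (hcon : IsCon con) :
    ∃ Bs : List Fm, (∀ β ∈ Bs, TrueS β) ∧ ∃ C : ℕ, ∀ (U : List Fm) (m : ℕ), Prov U m .bot →
      Prov (I.A 11 (nT (lc U)) o o o :: Bs) ((m + lc U + C) ^ C) (neg (conN con U m)) := by
  obtain ⟨B₀, hB₀, F, hF, hFm, h⟩ := ref_pr I hcon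
  set a1 := con.len with ha1
  set a2 := (I.A 11 (x 0) o o o).len with ha2
  set G : ℕ → ℕ := fun u => F (u + a1 * (u + 1) + a2 * (u + 1)) with hG
  have hGP : PB G := hF.comp ((PB.id.add ((PB.const _).mul (PB.id.add (PB.const 1)))).add
    ((PB.const _).mul (PB.id.add (PB.const 1))))
  obtain ⟨C₁, q, hq⟩ : PB fun u => (5 * G u) * (5 * (G u + a1 * (u + 1) + 2)) :=
    ((PB.const 5).mul hGP).mul ((PB.const 5).mul ((hGP.add ((PB.const _).mul
      (PB.id.add (PB.const 1)))).add (PB.const 2)))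
  refine ⟨B₀, hB₀, C₁ + q + 2, fun U m hp => ?_⟩
  obtain ⟨u, hu⟩ : ∃ u, u = m + lc U := ⟨_, rfl⟩
  have hl1 : (conN con U m).len ≤ a1 * (u + 1) := len_conN_le hcon (by omega)
  have hl2 : (I.A 11 (nT (lc U)) o o o).len ≤ a2 * (u + 1) := by
    rw [fact11_eq]
    exact Fm.len_cl (as_le (by simp [hu]))
  have h1 := h (conN con U m :: I.A 11 (nT (lc U)) o o o :: B₀) U m (fun β hβ => by simp [hβ])
    (by simp) (by simp) hp
  have h2 : F (m + lc U + (conN con U m).len + (I.A 11 (nT (lc U)) o o o).len) ≤ G u :=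
    hFm (by omega)
  have h3 := (h1.mono h2 h2).ded (conN_sentence hcon U m)
  have h4 := h3.prov
  refine h4.mono ?_
  rw [← hu]
  have h5 := hq u
  have hq' : (5 * G u) * (5 * (G u + a1 * (u + 1) + 2)) ≤ C₁ * (u + 2) ^ q := h5
  calc 5 * G u * (5 * (G u + (conN con U m).len + 2))
      ≤ (5 * G u) * (5 * (G u + a1 * (u + 1) + 2)) := by gcongr
    _ ≤ C₁ * (u + 2) ^ q := hq'
    _ ≤ (u + (C₁ + q + 2)) * (u + (C₁ + q + 2)) ^ q :=
        Nat.mul_le_mul (by omega) (Nat.pow_le_pow_left (by omega) _)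
    _ = (u + (C₁ + q + 2)) ^ (q + 1) := by rw [pow_succ]; ring
    _ ≤ (u + (C₁ + q + 2)) ^ (C₁ + q + 2) := Nat.pow_le_pow_right (by omega) (by omega)

include I in
lemma sem_sim (hcon : IsCon con) {Bs : List Fm} {C : ℕ}
    (h : ∀ (U : List Fm) (m : ℕ), Prov U m .bot →
      Prov (I.A 11 (nT (lc U)) o o o :: Bs) ((m + lc U + C) ^ C) (neg (conN con U m)))
    {a t L r P r₀ m y d w : ℕ} (h1 : PfR L a) (h2 : PLR L r) (h3 : LSR a) (h4 : LSR t)
    (h5 : MeR L (fc (I.A 11 (nT t) o o o))) (h6 : ∀ β ∈ Bs, MeR L (fc β))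
    (h7 : PfR P a) (h8 : PLR P r₀) (h9 : MeR P w)
    (h10 : w = fc ((con.sub 0 (nT t)).sub 1 (nT m)))
    (hy : y = (m + t + C) ^ C + r + r₀ + 1 + d) (h11 : cP con a y) : cP con t m := by
  obtain ⟨l, A, rfl, rfl, hl⟩ := h1
  obtain ⟨l', e1, rfl⟩ := h2
  obtain rfl := lc_inj e1
  obtain ⟨A', e2, hA⟩ := h3
  obtain rfl := lc_inj e2
  obtain ⟨T, rfl, hT⟩ := h4
  obtain ⟨p, A', rfl, e3, hp⟩ := h7
  obtain rfl := lc_inj e3
  obtain ⟨p', e4, rfl⟩ := h8
  obtain rfl := lc_inj e4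
  have m5 : I.A 11 (nT (lc T)) o o o ∈ l := by
    obtain ⟨l', φ, e3, e4, e5⟩ := h5
    obtain rfl := lc_inj e3
    rwa [fc_inj e4]
  have m6 : ∀ β ∈ Bs, β ∈ l := by
    intro β hβ
    obtain ⟨l', φ, e3, e4, e5⟩ := h6 β hβ
    obtain rfl := lc_inj e3
    rwa [fc_inj e4]
  have m9 : conN con T m ∈ p := by
    obtain ⟨l', φ, e3, e4, e5⟩ := h9
    obtain rfl := lc_inj e3
    have e6 : fc (conN con T m) = fc φ := h10.symm.trans e4
    rwa [fc_inj e6]
  rw [cP_lc hcon hT]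
  intro hb
  obtain ⟨P, hP, hlen⟩ := h T m hb
  refine (cP_lc hcon hA y).mp h11 ?_
  have q1 : IsProof A ((neg (conN con T m) :: P) ++ l) :=
    cut_list (hP.mono fun φ hφ => List.mem_append_left _ hφ) hl fun Q hQ => by
      rcases List.mem_cons.mp hQ with rfl | hQ
      · exact m5
      · exact m6 Q hQ
  refine ⟨((neg (conN con T m) :: P) ++ l) ++ p, ⟨q1.append hp,
    Or.inr (Or.inr (Or.inl ⟨conN con T m, ?_, ?_⟩))⟩, ?_⟩
  · exact List.mem_append_right _ m9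
  · exact List.mem_append_left _ (List.mem_append_left _ List.mem_cons_self)
  · rw [plen_cons, plen_append, plen_append]
    have : Fm.len .bot = 1 := rfl
    omega

/-- The bound of the simulation rule. -/
def bdQ (C : ℕ) (m t r r₀ d : Tm) : Tm :=
  .add (.add (.add (.add (powT (.add (.add m t) (nT C)) C) r) r₀) (nT 1)) d

lemma val_bdQ (C : ℕ) (m t r r₀ d : Tm) (e : ℕ → ℕ) : (bdQ C m t r r₀ d).val e =
    (m.val e + t.val e + C) ^ C + r.val e + r₀.val e + 1 + d.val e := by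
  simp only [bdQ, Tm.val, val_powT, Tm.val_num]

lemma sb_bdQ (C : ℕ) (m t r r₀ d : Tm) (σ : ℕ → Tm) : (bdQ C m t r r₀ d).sb σ =
    bdQ C (m.sb σ) (t.sb σ) (r.sb σ) (r₀.sb σ) (d.sb σ) := by
  simp only [bdQ, Tm.sb, sb_powT, Tm.sb_num]

/-- The simulation rule. -/
lemma ev_sim (hcon : IsCon con) {Bs : List Fm} {C : ℕ}
    (h : ∀ (U : List Fm) (m : ℕ), Prov U m .bot →
      Prov (I.A 11 (nT (lc U)) o o o :: Bs) ((m + lc U + C) ^ C) (neg (conN con U m))) :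
    Ev fun X => ∀ (a t L r m y c0' P w8 w9 d r₀ w u c0 : Tm) (n₁ n₂ n₃ n₄ n₅ n₆ n₇ n₈ : ℕ),
      X.Ok a → X.Ok t → X.Ok L → X.Ok r → X.Ok m → X.Ok y → X.Ok c0' → X.Ok P → X.Ok w8 →
      X.Ok w9 → X.Ok d → X.Ok r₀ → X.Ok w → X.Ok u → X.Ok c0 →
      X.E 1 (I.A 13 L a o o) → X.E 1 (I.A 14 L r o o) →
      X.E 1 (I.A 11 a o o o) → X.E 1 (I.A 11 t o o o) → X.E n₁ (I.A 16 t w8 o o) →
      X.E 1 (I.A 5 (nT (fc (I.A 11 (x 0) o o o))) o w8 w9) → X.E 1 (I.A 12 L w9 o o) →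
      X.E n₂ (I.A 13 P a o o) → X.E n₃ (I.A 14 P r₀ o o) → X.E n₄ (I.A 12 P w o o) →
      X.E n₅ (I.A 19 c0' (nT 1) u w) → X.E n₆ (I.A 16 m u o o) → X.E n₇ (Fm.eq c0' c0) →
      X.E n₈ (I.A 21 t c0 o o) → X.E 1 (Fm.eq y (bdQ C m t r r₀ d)) →
      X.E 1 (I.A 23 a y o o) → (∀ β ∈ Bs, X.E 1 (I.A 12 L (nT (fc β)) o o)) →
      X.E (n₁ + n₂ + n₃ + n₄ + n₅ + n₆ + n₇ + n₈ + 9 + Bs.length) (I.A 23 t m o o) := by
  have r := ev_rule I (.rl 13 (x 2) (x 0) o o :: .rl 14 (x 2) (x 3) o o ::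
    .rl 11 (x 0) o o o :: .rl 11 (x 1) o o o :: .rl 16 (x 1) (x 8) o o ::
    .rl 5 (nT (fc (I.A 11 (x 0) o o o))) o (x 8) (x 9) :: .rl 12 (x 2) (x 9) o o ::
    .rl 13 (x 7) (x 0) o o :: .rl 14 (x 7) (x 11) o o :: .rl 12 (x 7) (x 12) o o ::
    .rl 19 (x 6) (nT 1) (x 13) (x 12) :: .rl 16 (x 4) (x 13) o o :: .eq (x 6) (x 14) ::
    .rl 21 (x 1) (x 14) o o :: .eq (x 5) (bdQ C (x 4) (x 1) (x 3) (x 11) (x 10)) ::
    .rl 23 (x 0) (x 5) o o ::
    Bs.map fun β => At.rl 12 (x 2) (nT (fc β)) o o) (.rl 23 (x 1) (x 4) o o)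
    (by
      intro α hα
      simp only [List.mem_cons, List.mem_map] at hα
      rcases hα with rfl | rfl | rfl | rfl | rfl | rfl | rfl | rfl | rfl | rfl | rfl | rfl | rfl |
        rfl | rfl | rfl | rfl | ⟨β, _, rfl⟩ <;> simp [At.Wf, Al])
    (fun e => by
      rw [trL_iff]
      intro g
      have h1 : PfR (e 2) (e 0) := g (.rl 13 (x 2) (x 0) o o) (by simp)
      have h2 : PLR (e 2) (e 3) := g (.rl 14 (x 2) (x 3) o o) (by simp)
      have h3 : LSR (e 0) := g (.rl 11 (x 0) o o o) (by simp)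
      have h4 : LSR (e 1) := g (.rl 11 (x 1) o o o) (by simp)
      have h5 : e 8 = tc (nT (e 1)) := g (.rl 16 (x 1) (x 8) o o) (by simp)
      have h6 : SbF ((nT (fc (I.A 11 (x 0) o o o))).val e) 0 (e 8) (e 9) :=
        g (.rl 5 (nT (fc (I.A 11 (x 0) o o o))) o (x 8) (x 9)) (by simp)
      have h7 : MeR (e 2) (e 9) := g (.rl 12 (x 2) (x 9) o o) (by simp)
      have h8 : PfR (e 7) (e 0) := g (.rl 13 (x 7) (x 0) o o) (by simp)
      have h9 : PLR (e 7) (e 11) := g (.rl 14 (x 7) (x 11) o o) (by simp)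
      have h10 : MeR (e 7) (e 12) := g (.rl 12 (x 7) (x 12) o o) (by simp)
      have h11 : SBX (e 6) 1 (e 13) (e 12) := g (.rl 19 (x 6) (nT 1) (x 13) (x 12)) (by simp)
      have h12 : e 13 = tc (nT (e 4)) := g (.rl 16 (x 4) (x 13) o o) (by simp)
      have h13 : e 6 = e 14 := g (.eq (x 6) (x 14)) (by simp)
      have h14 : e 14 = fc (con.sub 0 (nT (e 1))) := g (.rl 21 (x 1) (x 14) o o) (by simp)
      have h15 : (x 5).val e = (bdQ C (x 4) (x 1) (x 3) (x 11) (x 10)).val e :=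
        g (.eq (x 5) (bdQ C (x 4) (x 1) (x 3) (x 11) (x 10))) (by simp)
      have h16 : cP con (e 0) (e 5) := g (.rl 23 (x 0) (x 5) o o) (by simp)
      have h17 : ∀ β ∈ Bs, MeR (e 2) (fc β) := fun β hβ => by
        have : MeR (e 2) ((nT (fc β)).val e) := g (.rl 12 (x 2) (nT (fc β)) o o) (by
          simp only [List.mem_cons, List.mem_map]
          iterate 16 right
          exact ⟨β, hβ, rfl⟩)
        rwa [Tm.val_num] at this
      rw [Tm.val_num] at h6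
      obtain ⟨φ, r', e1, e2, e3⟩ := h6
      obtain rfl := fc_inj e1
      obtain rfl := tc_inj (h5.symm.trans e2)
      have h7' : e 9 = fc (I.A 11 (nT (e 1)) o o o) := by
        rw [e3, Fm.sub_eq_sb, I.sbs _ _ _ _ _ _ (by simp [Al]) (by simp) (by simp) (by simp)]
        simp only [Tm.sb, update_self]
      rw [val_bdQ] at h15
      have h18 : e 12 = fc ((con.sub 0 (nT (e 1))).sub 1 (nT (e 4))) :=
        h11.2 _ _ (h13.trans h14) h12
      exact sem_sim I hcon h h1 h2 h3 h4 (h7' ▸ h7) h17 h8 h9 h10 h18 h15 h16)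
  refine r.mono ?_
  intro X r a t L rr m y c0' P w8 w9 d r₀ w u c0 n₁ n₂ n₃ n₄ n₅ n₆ n₇ n₈ ha ht hL hr hm hy hc0'
    hP hw8 hw9 hd hr₀ hw hu hc0 q1 q2 q3 q4 q5 q6 q7 q8 q9 q10 q11 q12 q13 q14 q15 q16 q17
  have key := r (tl [a, t, L, rr, m, y, c0', P, w8, w9, d, r₀, w, u, c0])
    (1 :: 1 :: 1 :: 1 :: n₁ :: 1 :: 1 :: n₂ :: n₃ :: n₄ :: n₅ :: n₆ :: n₇ :: n₈ :: 1 :: 1 ::
      List.replicate Bs.length 1)
    (X.ok_tl (by
      simp only [List.forall_mem_cons, List.not_mem_nil, IsEmpty.forall_iff, implies_true,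
        and_true]
      exact ⟨ha, ht, hL, hr, hm, hy, hc0', hP, hw8, hw9, hd, hr₀, hw, hu, hc0⟩))
    (.cons q1 (.cons q2 (.cons q3 (.cons q4 (.cons q5 (.cons (by
      show X.E 1 (I.A 5 ((nT (fc (I.A 11 (x 0) o o o))).sb _) o w8 w9)
      rw [Tm.sb_num]
      exact q6) (.cons q7 (.cons q8 (.cons q9 (.cons q10 (.cons q11 (.cons q12 (.cons q13
      (.cons q14 (.cons (by
      show X.E 1 (Fm.eq y ((bdQ C (x 4) (x 1) (x 3) (x 11) (x 10)).sb _))
      rw [sb_bdQ]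
      exact q15) (.cons q16
      (forall2_rep (P := fun nn α => X.E nn (At.fm I (At.sb α
          (tl [a, t, L, rr, m, y, c0', P, w8, w9, d, r₀, w, u, c0]))))
        (g := fun β => At.rl 12 (x 2) (nT (fc β)) o o) (fun β hβ => by
        show X.E 1 (I.A 12 L ((nT (fc β)).sb _) o o)
        rw [Tm.sb_num]
        exact q17 β hβ))))))))))))))))))
  refine key.mono (le_of_eq ?_)
  simp only [List.sum_cons, List.sum_replicate, smul_eq_mul]
  ring

end Helper31Con.Amp
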