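import Pool.Agent.Helper81_P.Sim

/-!
# The simulation theorem
-/

namespace Helper31Con.Amp

open Function Filter Fm

variable {con θ : Fm} (I : IfaceS (RA con θ))

/-- If `A` proves `Con_T(m)` with `k` symbols and `E` proves `Con_A` at a polynomially larger
argument with `k'` symbols, then `E` proves `Con_T(m)` with polynomially many symbols. -/
theorem sim {con : Fm} (hcon : IsCon con) : ∃ B₁ : List Fm, (∀ φ ∈ B₁, TrueS φ) ∧
    ∀ A T : List Fm, (∀ φ ∈ A, Fm.Sentence φ) → (∀ φ ∈ T, Fm.Sentence φ) →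
      (∀ φ ∈ B₁, ∃ k, Prov A k φ) → ∃ c d, ∀ E : List Fm, (∀ φ ∈ B₁, φ ∈ E) → ∀ m k k',
        Prov A k (conN con T m) → Prov E k' (conN con A ((m + k + c) ^ c)) →
          Prov E ((m + k + k' + d) ^ d) (conN con T m) := by
  obtain ⟨I⟩ := exists_ifaceA (θ := Fm.bot) hcon (fun k hk => absurd hk (by simp [Fm.Free]))
  obtain ⟨Bs, hBs, C, hC⟩ := ref_core I hcon
  obtain ⟨f, hf⟩ := ev_dec I
  obtain ⟨g, hg⟩ := ev_c0 I
  obtain ⟨h, hhP, hh⟩ := eq_fact (x 0) (bdQ C (x 1) (x 2) (x 3) (x 4) (x 5))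
  obtain ⟨c1, h1⟩ := horn1 (α := con) (β := I.A 23 (x 0) (x 1) o o) (fun e h1 => by
    rw [I.sat _ _ _ _ _ _ (by simp [Al]) (by simp [Al]) (by simp) (by simp)]
    exact (hcon.cP_iff e).mp h1)
  obtain ⟨c2, h2⟩ := horn1 (α := I.A 23 (x 0) (x 1) o o) (β := con) (fun e h1 => by
    rw [I.sat _ _ _ _ _ _ (by simp [Al]) (by simp [Al]) (by simp) (by simp)] at h1
    exact (hcon.cP_iff e).mpr h1)
  obtain ⟨B₀, hB₀, c₀, hX⟩ := ((((hf.and (ev_nmc I)).and (hg.and (ev_sim I hcon hC))).and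
    (((ev_pfl I).and (ev_pll I)).and ((ev_mel I).and (ev_mre I)))).and
    (((ev_codeF I).and (ev_sbF I)).and ((ev_nm I).and ev_hyp))).and
    (((ev_pr PB.id).and (ev_pr hhP)).and ((ev_rich hh).and ((ev_rich h1).and (ev_rich h2))))
  refine ⟨Bs ++ B₀, ?_, ?_⟩
  · intro φ hφ
    rcases List.mem_append.mp hφ with h | h
    · exact hBs φ h
    · exact hB₀ φ h
  intro A T hA hT hAB
  -- `A` proves that `T` is a list of sentences
  have h11 : ∃ k, Prov A k (I.A 11 (nT (lc T)) o o o) := by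
    obtain ⟨X, e1, e2, e3, e4, e5⟩ := exists_cx B₀ c₀ (f (lc T) + 1) (by omega)
    obtain ⟨⟨⟨⟨⟨hf, _⟩, _⟩, _⟩, _⟩, _⟩ := hX X (by rw [e1]; exact fun β hβ => hβ) (by rw [e3])
      (by rw [e4, e5])
    have q := hf 11 (by omega) (lc T) 0 0 0 (lc T) le_rfl (by omega) (by omega) (by omega)
      (by rw [e4]; omega) ⟨T, rfl, hT⟩
    have q' : Pr X.B (X.C * 1) X.C (impL X.G (I.A 11 (nT (lc T)) o o o)) := q
    rw [e1, e2] at q'
    have q'' : Pr B₀ (X.C * 1) X.C (I.A 11 (nT (lc T)) o o o) := q'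
    exact prov_cut (fun β hβ => hAB β (List.mem_append_right _ hβ)) q''.prov
  obtain ⟨L, hL, hLm⟩ := exists_list (T := A) (Ps := I.A 11 (nT (lc T)) o o o :: Bs) (by
      intro φ hφ
      rcases List.mem_cons.mp hφ with rfl | hφ
      · exact h11
      · exact hAB φ (List.mem_append_left _ hφ))
  obtain ⟨con₀, hcon₀⟩ : ∃ φ, φ = con.sub 0 (nT (lc T)) := ⟨_, rfl⟩
  set a := lc A with ha
  set t := lc T with ht
  set r := plen L with hr
  set w8 := tc (nT t) with hw8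
  set w9 := fc (I.A 11 (nT t) o o o) with hw9
  set c11 := fc (I.A 11 (x 0) o o o) with hc11
  set N₁ := a + t + lc L + r + fc con₀ + w8 + w9 + c11 + fc con + 1 with hN₁
  set ca := t + C + r + 3 with hca
  set K : ℕ → ℕ := fun v => v + con₀.len + 2 with hK
  set S₀ : ℕ → ℕ := fun v => ((v + ca) ^ ca + v + N₁ + 1 + f N₁ + g N₁) +
    (c1 + v + c1 * ((v + ca) ^ ca + N₁ + v + 1) + con.len * ((v + ca) ^ ca + N₁ + v + 1)) with hS₀
  set Sf : ℕ → ℕ := fun v => 12 * (c₀ + 2 * K v) + 100 + S₀ v with hSf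
  set Cf : ℕ → ℕ := fun v => (Sf v + c₀) ^ c₀ with hCf
  set Kc : ℕ → ℕ := fun v => 4 * K v + 2 with hKc
  set Nf : ℕ → ℕ := fun v => 2 * (t + 1) +
    ((cs2 v + Kc v + 2 * ((2 * v + 2) * v + 1) + 4) * v + Kc v + 1) +
    ((3 * v + 3) * v + 1) + ((2 * v + 2) * v + 1) + 3 * con₀.len + 2 * (v + 1) +
    4 * con₀.len + (2 * (t + 1) + 2) + 9 + Bs.length with hNf
  set H : ℕ → ℕ := fun v => (c2 + (Cf v * Nf v + 10 * K v)) *
    (4 * Cf v + 5 + c2 * (v + N₁ + 1)) with hH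
  have hKP : PB K := (PB.id.add (PB.const _)).add (PB.const _)
  have hYP : PB fun v => (v + ca) ^ ca := PB.pow (PB.id.add (PB.const _)) ca
  have hYP' : PB fun v => (v + ca) ^ ca + N₁ + v + 1 :=
    ((hYP.add (PB.const _)).add PB.id).add (PB.const 1)
  have hS₀P : PB S₀ := (((((hYP.add PB.id).add (PB.const _)).add (PB.const 1)).add
    (PB.const _)).add (PB.const _)).add ((((PB.const _).add PB.id).add
      ((PB.const _).mul hYP')).add ((PB.const _).mul hYP'))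
  have hSP : PB Sf := (((PB.const 12).mul ((PB.const _).add ((PB.const 2).mul hKP))).add
    (PB.const 100)).add hS₀P
  have hCP : PB Cf := PB.pow (hSP.add (PB.const _)) c₀
  have hcP : PB cs2 := ((PB.const 40).mul (PB.id.add (PB.const 1))).mul (PB.id.add (PB.const 1))
  have hKcP : PB Kc := ((PB.const 4).mul hKP).add (PB.const 2)
  have hcMP : PB fun u => (2 * u + 2) * u + 1 :=
    ((((PB.const 2).mul PB.id).add (PB.const 2)).mul PB.id).add (PB.const 1)
  have hNP : PB Nf := (((((((((PB.const _).add ((((((hcP.add hKcP).add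
    ((PB.const 2).mul hcMP)).add (PB.const 4)).mul PB.id).add hKcP).add (PB.const 1))).add
    (((((PB.const 3).mul PB.id).add (PB.const 3)).mul PB.id).add (PB.const 1))).add hcMP).add
    (PB.const _)).add ((PB.const 2).mul (PB.id.add (PB.const 1)))).add (PB.const _)).add
    (PB.const _)).add (PB.const _)).add (PB.const _)
  have hHP : PB H := ((PB.const _).add ((hCP.mul hNP).add ((PB.const 10).mul hKP))).mul
    ((((PB.const 4).mul hCP).add (PB.const 5)).add ((PB.const _).mul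
    ((PB.id.add (PB.const _)).add (PB.const 1))))
  obtain ⟨C₁, q, hCq⟩ := hHP
  refine ⟨ca, C₁ + q + 2, fun E hE m k k' hp hk' => ?_⟩
  obtain ⟨P, hP, hlen⟩ := hp
  obtain ⟨v, hv⟩ : ∃ v, v = m + k + k' := ⟨_, rfl⟩
  obtain ⟨y, hy⟩ : ∃ y, y = (m + k + ca) ^ ca := ⟨_, rfl⟩
  rw [← hy] at hk'
  have hyv : y ≤ (v + ca) ^ ca := by rw [hy]; exact Nat.pow_le_pow_left (by omega) _
  set κ := conN con T m with hκ
  have hκ0 : κ = con₀.sub 1 (nT m) := by rw [hκ, hcon₀]; rfl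
  set r₀ := plen (κ :: P) with hr₀
  -- the slack
  have hyb : (m + t + C) ^ C + r + r₀ + 1 ≤ y := by
    rw [hy]
    obtain ⟨z, hz⟩ : ∃ z, z = m + k + ca := ⟨_, rfl⟩
    have a0 : 3 + r + k ≤ z := by omega
    have a1 : (m + t + C) ^ C ≤ z ^ C := Nat.pow_le_pow_left (by omega) _
    have a2 : z ^ (C + 1) ≤ z ^ ca := Nat.pow_le_pow_right (by omega) (by omega)
    have a3 : 1 ≤ z ^ C := Nat.one_le_pow _ _ (by omega)
    rw [← hz]
    rw [pow_succ] at a2
    have a4 : z ^ C * (3 + r + k) ≤ z ^ C * z := Nat.mul_le_mul_left _ a0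
    have a5 : z ^ C + r + k + 1 ≤ z ^ C * (3 + r + k) := by nlinarith
    omega
  obtain ⟨d, hd⟩ := Nat.exists_eq_add_of_le hyb
  have hKv : K v = v + con₀.len + 2 := rfl
  have hS₀v : S₀ v = ((v + ca) ^ ca + v + N₁ + 1 + f N₁ + g N₁) +
    (c1 + v + c1 * ((v + ca) ^ ca + N₁ + v + 1) + con.len * ((v + ca) ^ ca + N₁ + v + 1)) := rfl
  have hSv : Sf v = 12 * (c₀ + 2 * K v) + 100 + S₀ v := rfl
  have htot : plen ((κ :: P) ++ [con₀]) + tlen [Tm.zero, nT m] ≤ K v := by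
    have hr1 : r₀ = κ.len + plen P := plen_cons _ _
    rw [plen_append, tlen_two, hKv]
    simp only [plen_cons, plen_nil]
    omega
  obtain ⟨X, hXB, hXW, hXS, hXC, hctx, helim⟩ :=
    exists_ctx E c₀ (S₀ v) (κ :: P) [con₀] [Tm.zero, nT m] (K v) htot
  rw [← hSv] at hXS
  have hXC' : X.C = Cf v := by rw [hXC, hXS]
  obtain ⟨⟨⟨⟨⟨hf, hnmc⟩, ⟨hg, hsim⟩⟩, ⟨⟨hpfl, hpll⟩, ⟨hmel, hmre⟩⟩⟩, ⟨⟨hcode, hsbF⟩, ⟨hnm, hhyp⟩⟩⟩,
    ⟨⟨hpr, hprh⟩, ⟨hh, ⟨h1, h2⟩⟩⟩⟩ := hX X
    (by rw [hXB]; exact fun β hβ => hE β (List.mem_append_right _ hβ)) (by rw [hXW])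
    (by rw [hXC])
  obtain ⟨V, w, hVF, hVT, hVlen, hLN⟩ := hctx hhyp
  have hSX : X.S = 12 * (c₀ + 2 * K v) + 100 + S₀ v := by rw [hXS]
  have okn : ∀ b, b ≤ N₁ + (v + ca) ^ ca + v → X.Ok (nT b) := fun b hb =>
    X.ok_num (by omega)
  have hfS : f N₁ ≤ X.S := by omega
  have hgS : g N₁ ≤ X.S := by omega
  have hTz : V.T .zero := hVT _ (by simp)
  have hTm : V.T (nT m) := hVT _ (by simp)
  have hFc : V.F con₀ := hVF _ (List.mem_append_right _ (List.mem_singleton.mpr rfl))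
  have hFL : ∀ ψ ∈ κ :: P, V.F ψ ∧ ψ.len ≤ v := fun ψ hψ =>
    ⟨hVF ψ (List.mem_append_left _ hψ), (len_le_plen hψ).trans (by omega)⟩
  have hlenL : (κ :: P).length ≤ v := (length_le_plen _).trans (by omega)
  have m9 : I.A 11 (nT t) o o o ∈ L := hLm _ (by simp)
  have p1 := hf 13 (by omega) (lc L) a 0 0 N₁ (by omega) (by omega) (by omega) (by omega)
    hfS ⟨L, A, rfl, rfl, hL⟩
  have p2 := hf 14 (by omega) (lc L) r 0 0 N₁ (by omega) (by omega) (by omega) (by omega)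
    hfS ⟨L, rfl, rfl⟩
  have p3 := hf 11 (by omega) a 0 0 0 N₁ (by omega) (by omega) (by omega) (by omega)
    hfS ⟨A, rfl, hA⟩
  have p4 := hf 11 (by omega) t 0 0 0 N₁ (by omega) (by omega) (by omega) (by omega)
    hfS ⟨T, rfl, hT⟩
  have p5 := hnmc t (by omega) (by omega)
  have p6 := hf 5 (by omega) c11 0 w8 w9 N₁ (by omega) (by omega) (by omega) (by omega)
    hfS ⟨I.A 11 (x 0) o o o, nT t, rfl, rfl, by
      rw [hw9, Fm.sub_eq_sb, I.sbs _ _ _ _ _ _ (by simp [Al]) (by simp) (by simp) (by simp)]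
      simp only [Tm.sb, update_self]⟩
  have p7 := hf 12 (by omega) (lc L) w9 0 0 N₁ (by omega) (by omega) (by omega) (by omega)
    hfS ⟨L, _, rfl, rfl, m9⟩
  -- the proof from `A`
  have hAm : ∀ ψ ∈ A, V.F ψ → X.E (Kc v) (I.A 12 (nT a) (V.f ψ) o o) := by
    intro ψ hψ hF
    have q1 := mem_le_lc hψ
    have q2 := hVlen _ hF
    have q3 := hf 12 (by omega) a (fc ψ) 0 0 N₁ (by omega) (by omega) (by omega) (by omega)
      hfS ⟨A, ψ, rfl, rfl, hψ⟩
    have q4 := hcode V ψ hF (by omega)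
    refine (hmre _ _ _ _ _ (okn _ (by omega)) (okn _ (by omega)) (V.okf ψ hF) q3 q4).mono ?_
    have q6 : Kc v = 4 * K v + 2 := rfl
    omega
  have h10 : X.E (Kc v) (I.A 10 (nT a) o o o) :=
    (hf 10 (by omega) a 0 0 0 N₁ (by omega) (by omega) (by omega) (by omega) hfS
      ⟨A, rfl⟩).mono (by
      have q6 : Kc v = 4 * K v + 2 := rfl
      omega)
  have p8 := hpfl V w (nT a) A v (Kc v) v (κ :: P) (okn _ (by omega)) hTz hLN hP hFL
    hlenL h10 hAm
  have p9 := hpll V w v (κ :: P) hLN hFL (by omega)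
  have p10 := hmel V w v (κ :: P) hLN hFL _ List.mem_cons_self
  have p11 := hsbF V 1 (nT m) (okn 1 (by omega)) hTm con₀ hFc (by
    rw [← hκ0]; exact (hFL κ List.mem_cons_self).1)
  rw [← hκ0] at p11
  have p12 := hnm V m (okn _ (by omega)) hTm
  have p13 := hcode V con₀ hFc (by omega)
  have p14 := hg t N₁ (by omega) (by omega) (by omega) (by rw [← hcon₀]; omega)
    (by omega) hgS
  rw [← hcon₀] at p14
  have p15 : X.E 1 (Fm.eq (nT y) (bdQ C (nT m) (nT t) (nT r) (nT r₀) (nT d))) := by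
    have := hprh _ (hh (as [y, m, t, r, r₀, d]) X.S (as_le (by
      simp only [List.forall_mem_cons, List.not_mem_nil, IsEmpty.forall_iff, implies_true,
        and_true]
      omega)) (by
        rw [val_bdQ]
        show y = (m + t + C) ^ C + r + r₀ + 1 + d
        omega))
    have h3 : Fm.cl (as [y, m, t, r, r₀, d]) (Fm.eq (x 0) (bdQ C (x 1) (x 2) (x 3) (x 4) (x 5))) =
        Fm.eq (nT y) (bdQ C (nT m) (nT t) (nT r) (nT r₀) (nT d)) := by
      simp only [Fm.cl, Fm.sb, Tm.sb, sb_bdQ]; rfl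
    rwa [h3] at this
  have p16 : X.E 1 (I.A 23 (nT a) (nT y) o o) := hpr _ (by
    have a1 : (conN con A y).len ≤ con.len * ((v + ca) ^ ca + N₁ + v + 1) :=
      len_conN_le hcon (by omega)
    rw [hcon.conN_eq] at hk'
    have a2 := h1 (as [lc A, y]) ((v + ca) ^ ca + N₁ + v) X.S k' (as_le (by
      simp only [List.forall_mem_cons, List.not_mem_nil, IsEmpty.forall_iff, implies_true,
        and_true]
      omega)) (by omega) (by
        rw [hXB]
        exact hk'.pr.mono le_rfl (by omega))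
    rw [I.cl _ _ _ _ _ _ (by simp [Al]) (by simp [Al]) (by simp) (by simp)] at a2
    exact a2.mono (by show c1 + k' ≤ X.S; omega) (by show X.S ≤ X.S; omega))
  have p17 : ∀ β ∈ Bs, X.E 1 (I.A 12 (nT (lc L)) (nT (fc β)) o o) := by
    intro β hβ
    have a1 : β ∈ L := hLm _ (by simp [hβ])
    have a2 := mem_le_lc a1
    exact hf 12 (by omega) (lc L) (fc β) 0 0 N₁ (by omega) (by omega) (by omega) (by omega)
      hfS ⟨L, β, rfl, rfl, a1⟩
  have key := hsim (nT a) (nT t) (nT (lc L)) (nT r) (nT m) (nT y) (V.f con₀) (w (κ :: P)) (nT w8)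
    (nT w9) (nT d) (nT r₀) (V.f κ) (V.t (nT m)) (nT (fc con₀)) _ _ _ _ _ _ _ _
    (okn _ (by omega)) (okn _ (by omega)) (okn _ (by omega)) (okn _ (by omega))
    (okn _ (by omega)) (okn _ (by omega)) (V.okf _ hFc) hLN.ok (okn _ (by omega))
    (okn _ (by omega)) (okn _ (by omega)) (okn _ (by omega))
    (V.okf _ (hFL κ List.mem_cons_self).1) (V.okt _ hTm) (okn _ (by omega))
    p1 p2 p3 p4 p5 p6 p7 p8 p9 p10 p11 p12 p13 p14 p15 p16 p17
  have key2 : X.E (Nf v) (I.A 23 (nT t) (nT m) o o) := by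
    refine key.mono ?_
    have a1 : Nf v = 2 * (t + 1) +
      ((cs2 v + Kc v + 2 * ((2 * v + 2) * v + 1) + 4) * v + Kc v + 1) +
      ((3 * v + 3) * v + 1) + ((2 * v + 2) * v + 1) + 3 * con₀.len + 2 * (v + 1) +
      4 * con₀.len + (2 * (t + 1) + 2) + 9 + Bs.length := rfl
    have a2 : cL v (Kc v) v * (κ :: P).length ≤
        (cs2 v + Kc v + 2 * ((2 * v + 2) * v + 1) + 4) * v := Nat.mul_le_mul le_rfl hlenL
    have a3 : (3 * v + 3) * (κ :: P).length ≤ (3 * v + 3) * v := Nat.mul_le_mul le_rfl hlenL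
    have a4 : cM v (κ :: P).length ≤ (2 * v + 2) * v + 1 := cM_mono v hlenL
    omega
  have key3 := helim _ _ (by
    intro i hi
    rcases I.free _ _ _ _ _ _ (alw_num _) (alw_num _) alw_zero alw_zero hi with h | h | h | h
    · exact absurd h (Tm.not_has_num _ _)
    · exact absurd h (Tm.not_has_num _ _)
    · exact absurd h (by simp [Tm.Has])
    · exact absurd h (by simp [Tm.Has])) key2
  rw [hXC'] at key3
  rw [hXB] at h2
  have p18 := h2 (as [t, m]) (v + N₁) (4 * Cf v + 5 + c2 * (v + N₁ + 1)) _ (as_le (by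
    simp only [List.forall_mem_cons, List.not_mem_nil, IsEmpty.forall_iff, implies_true,
      and_true]
    omega)) (by omega) (by
    rw [I.cl _ _ _ _ _ _ (by simp [Al]) (by simp [Al]) (by simp) (by simp)]
    exact key3.mono le_rfl (by omega))
  have p19 := p18.prov
  have p20 : con.cl (as [t, m]) = κ := (hcon.conN_eq T m).symm
  rw [p20] at p19
  refine p19.mono ?_
  have q13 : (c2 + (Cf v * Nf v + 10 * K v)) * (4 * Cf v + 5 + c2 * (v + N₁ + 1)) ≤
    C₁ * (v + 2) ^ q := hCq v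
  refine q13.trans ?_
  rw [← hv]
  calc C₁ * (v + 2) ^ q ≤ (v + (C₁ + q + 2)) * (v + (C₁ + q + 2)) ^ q :=
        Nat.mul_le_mul (by omega) (Nat.pow_le_pow_left (by omega) _)
    _ = (v + (C₁ + q + 2)) ^ (q + 1) := by rw [pow_succ]; ring
    _ ≤ (v + (C₁ + q + 2)) ^ (C₁ + q + 2) := Nat.pow_le_pow_right (by omega) (by omega)

end Helper31Con.Amp
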