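import Pool.Agent.Helper81_P.SimMain
import Pool.Agent.Helper15_PSC.Split
import Pool.Agent.Helper15_PSC.Main
import Pool.Agent.Helper81_X.Main
import Pool.Agent.Helper40_H.Nf

/-!
# The simulation order
-/

namespace Helper31Con.X81

open Function Filter Fm Amp H5 H40

lemma Proves.trans {A B C : List Fm} (h : Proves A B) (h' : Proves B C) : Proves A C :=
  fun φ hφ => pv_iff.mp (Pv.cut (fun P hP => pv_iff.mpr (h P hP)) (pv_iff.mpr (h' φ hφ)))

lemma Proves.of_subset {A B : List Fm} (h : ∀ φ ∈ B, φ ∈ A) : Proves A B :=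
  fun φ hφ => pv_iff.mp (Pv.mem (h φ hφ))

lemma Proves.mono {A A' B : List Fm} (h : Proves A B) (h' : ∀ φ ∈ A, φ ∈ A') : Proves A' B :=
  fun φ hφ => pv_iff.mp ((pv_iff.mpr (h φ hφ)).monoT h')

lemma Prov.monoT {A A' : List Fm} {k : ℕ} {φ : Fm} (h : Prov A k φ) (h' : ∀ φ ∈ A, φ ∈ A') :
    Prov A' k φ := by
  obtain ⟨L, h1, h2⟩ := h
  exact ⟨L, h1.mono h', h2⟩

/-- A theory that proves `E` has polynomial proofs of whatever `E` has. -/
lemma Short.of_proves {con : Fm} {A E T : List Fm} (h : Short con E T) (hA : Proves A E) :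
    Short con A T := by
  obtain ⟨c, hc⟩ := h
  obtain ⟨C, hC⟩ := prov_cut_const (T := A) (Ps := E) hA
  have hP : PB fun n => n ^ c + c + C := ((PB.pow PB.id c).add (PB.const c)).add (PB.const C)
  exact Short.of_le hP fun n => hC _ _ (Prov.monoT (hc n) fun φ hφ => List.mem_append_left _ hφ)

lemma short_psc {con : Fm} (hcon : IsCon con) : ∃ B₁ : List Fm, AllTrue B₁ ∧
    ∀ A T U : List Fm, Sents T → Sents U → Proves T B₁ → (∃ k, Prov T k (conS con U)) →
      Proves A B₁ → Short con A T → Short con A U := by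
  obtain ⟨B₁, h1, h2⟩ := psc hcon
  refine ⟨B₁, h1, fun A T U hT hU hTB hTU hAB hs => ?_⟩
  obtain ⟨c', hc'⟩ := hs
  obtain ⟨c, d, hcd⟩ := h2 T U hT hU hTB hTU
  obtain ⟨C, hC⟩ := prov_cut_const (T := A) (Ps := B₁) hAB
  have hP : PB fun n => (n + (((n + c) ^ c) ^ c' + c') + d) ^ d + C :=
    (PB.pow ((PB.id.add ((PB.pow (PB.pow (PB.id.add (PB.const c)) c) c').add (PB.const c'))).add
      (PB.const d)) d).add (PB.const C)
  exact Short.of_le hP fun n => hC _ _ (hcd (B₁ ++ A)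
    (fun φ hφ => List.mem_append_left _ hφ) n _
    (Prov.monoT (hc' _) fun φ hφ => List.mem_append_right _ hφ))

lemma short_split {con : Fm} (hcon : IsCon con) : ∃ B₁ : List Fm, AllTrue B₁ ∧
    ∀ (A T : List Fm) (σ : Fm), Sents T → Sentence σ → Proves T B₁ →
      (∃ k, Prov (neg σ :: T) k (conS con (σ :: T))) →
      Proves A B₁ → Short con A T → Short con A (σ :: T) := by
  obtain ⟨B₁, h1, h2⟩ := split hcon
  refine ⟨B₁, h1, fun A T σ hT hσ hTB hTU hAB hs => ?_⟩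
  obtain ⟨c', hc'⟩ := hs
  obtain ⟨c, d, hcd⟩ := h2 T σ hT hσ hTB hTU
  obtain ⟨C, hC⟩ := prov_cut_const (T := A) (Ps := B₁) hAB
  have hP : PB fun n => (n + (((n + c) ^ c) ^ c' + c') + d) ^ d + C :=
    (PB.pow ((PB.id.add ((PB.pow (PB.pow (PB.id.add (PB.const c)) c) c').add (PB.const c'))).add
      (PB.const d)) d).add (PB.const C)
  exact Short.of_le hP fun n => hC _ _ (hcd (B₁ ++ A)
    (fun φ hφ => List.mem_append_left _ hφ) n _
    (Prov.monoT (hc' _) fun φ hφ => List.mem_append_right _ hφ))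

/-- Transitivity: `E` simulates `T` if `E` simulates `A` and `A` simulates `T`. -/
lemma short_trans {con : Fm} (hcon : IsCon con) : ∃ B₁ : List Fm, AllTrue B₁ ∧
    ∀ E A T : List Fm, Sents A → Sents T → Proves A B₁ → Proves E B₁ →
      Short con E A → Short con A T → Short con E T := by
  obtain ⟨B₁, h1, h2⟩ := sim hcon
  refine ⟨B₁, h1, fun E A T hA hT hAB hEB hs hs' => ?_⟩
  obtain ⟨c₂, hc₂⟩ := hs
  obtain ⟨c₁, hc₁⟩ := hs'
  obtain ⟨c, d, hcd⟩ := h2 A T hA hT hAB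
  obtain ⟨C, hC⟩ := prov_cut_const (T := E) (Ps := B₁) hEB
  have hk : PB fun m => m ^ c₁ + c₁ := (PB.pow PB.id c₁).add (PB.const c₁)
  have hP : PB fun m => (m + (m ^ c₁ + c₁) + (((m + (m ^ c₁ + c₁) + c) ^ c) ^ c₂ + c₂) + d) ^ d + C :=
    (PB.pow (((PB.id.add hk).add ((PB.pow (PB.pow ((PB.id.add hk).add (PB.const c)) c) c₂).add
      (PB.const c₂))).add (PB.const d)) d).add (PB.const C)
  exact Short.of_le hP fun m => hC _ _ (hcd (B₁ ++ E)
    (fun φ hφ => List.mem_append_left _ hφ) m _ _ (hc₁ m)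
    (Prov.monoT (hc₂ _) fun φ hφ => List.mem_append_right _ hφ))

end Helper31Con.X81
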