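import Pool.Agent.Helper81_P.Ax

/-!
# Lengths, names of lists, proofs
-/

namespace Helper31Con.Amp

open Function Filter Fm

variable {con θ : Fm} (I : IfaceS (RA con θ))

/-! ### Sums -/

lemma ev_sum : Ev fun X => ∀ a b c, c = a + b → c + 1 ≤ X.S →
    X.E 1 (Fm.eq (nT c) (.add (nT a) (nT b))) := by
  obtain ⟨f, hf, h⟩ := eq_fact (x 0) (.add (x 1) (x 2))
  refine ((ev_rich h).and (ev_pr hf)).mono ?_
  rintro X ⟨h1, h2⟩ a b c hc hS
  have := h1 (as [c, a, b]) X.S (as_le (by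
    simp only [List.forall_mem_cons, List.not_mem_nil, IsEmpty.forall_iff, implies_true, and_true]
    omega)) (by simp only [Tm.val]; exact hc)
  exact h2 _ this

/-! ### Lengths -/

lemma ln_var {y k : ℕ} (h : y = nd 0 k) : LnT y (k + 1) := ⟨.var k, h, rfl⟩
lemma ln_zero {y : ℕ} (h : y = nd 1 0) : LnT y 1 := ⟨.zero, h, rfl⟩
lemma ln_succ {y a n : ℕ} (h : y = nd 2 a) (h1 : LnT a n) : LnT y (n + 1) := by
  obtain ⟨t, rfl, rfl⟩ := h1
  exact ⟨.succ t, h, rfl⟩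
lemma ln_bin {y a b n m s d : ℕ} (hd : d = 3 ∨ d = 4) (h : y = nd d (nd a b)) (h1 : LnT a n)
    (h2 : LnT b m) (hs : s = n + m) : LnT y (s + 1) := by
  obtain ⟨t, rfl, rfl⟩ := h1
  obtain ⟨t', rfl, rfl⟩ := h2
  rcases hd with rfl | rfl
  · exact ⟨.add t t', h, by rw [hs]; rfl⟩
  · exact ⟨.mul t t', h, by rw [hs]; rfl⟩
lemma ln_bot {y : ℕ} (h : y = nd 5 0) : LnF y 1 := ⟨.bot, h, rfl⟩
lemma ln_at {y a b n m s d : ℕ} (hd : d = 6 ∨ d = 7) (h : y = nd d (nd a b)) (h1 : LnT a n)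
    (h2 : LnT b m) (hs : s = n + m) : LnF y (s + 1) := by
  obtain ⟨t, rfl, rfl⟩ := h1
  obtain ⟨t', rfl, rfl⟩ := h2
  rcases hd with rfl | rfl
  · exact ⟨.eq t t', h, by rw [hs]; rfl⟩
  · exact ⟨.le t t', h, by rw [hs]; rfl⟩
lemma ln_imp {y a b n m s : ℕ} (h : y = nd 8 (nd a b)) (h1 : LnF a n)
    (h2 : LnF b m) (hs : s = n + m) : LnF y (s + 1) := by
  obtain ⟨t, rfl, rfl⟩ := h1
  obtain ⟨t', rfl, rfl⟩ := h2
  exact ⟨.imp t t', h, by rw [hs]; rfl⟩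
lemma ln_all {y k b m s : ℕ} (h : y = nd 9 (nd k b)) (h1 : LnF b m) (hs : s = m + k) :
    LnF y (s + 1 + 1) := by
  obtain ⟨t, rfl, rfl⟩ := h1
  exact ⟨.all k t, h, by rw [hs]; rfl⟩

lemma ev_lnT : Ev fun X => ∀ (V : Nm X) (t : Tm), V.T t → t.len + 1 ≤ X.S →
    X.E (3 * t.len) (I.A 7 (V.t t) (nT t.len) o o) := by
  have r0 := ev_rule I [.n1 (x 0) 0 (x 1)] (.rl 7 (x 0) (.succ (x 1)) o o) (by simp [At.Wf, Al])
    (fun e h => ln_var h)
  have r1 := ev_rule I [.n1 (x 0) 1 o] (.rl 7 (x 0) (nT 1) o o) (by simp [At.Wf, Al])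
    (fun e h => ln_zero h)
  have r2 := ev_rule I [.n1 (x 0) 2 (x 1), .rl 7 (x 1) (x 2) o o] (.rl 7 (x 0) (.succ (x 2)) o o)
    (by simp [At.Wf, Al]) (fun e h h1 => ln_succ h h1)
  have r3 := fun (d : ℕ) (hd : d = 3 ∨ d = 4) =>
    ev_rule I [.n2 (x 0) d (x 1) (x 2), .rl 7 (x 1) (x 3) o o, .rl 7 (x 2) (x 4) o o,
      .eq (x 5) (.add (x 3) (x 4))]
      (.rl 7 (x 0) (.succ (x 5)) o o) (by simp [At.Wf, Al])
      (fun e h h1 h2 h3 => ln_bin hd h h1 h2 h3)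
  refine (((r0.and r1).and (r2.and ((r3 3 (by omega)).and (r3 4 (by omega))))).and ev_sum).mono ?_
  rintro X ⟨⟨⟨r0, r1⟩, ⟨r2, ⟨r3, r4⟩⟩⟩, hs⟩ V t
  induction t with
  | var k =>
    intro ht hS
    obtain ⟨ok, h⟩ := V.var k ht
    exact (r0 _ [1] (Cx.ok2 (V.okt _ ht) ok) (.cons h .nil)).mono (by simp [Tm.len] <;> omega)
  | zero =>
    intro ht hS
    exact (r1 _ [1] (Cx.ok1 (V.okt _ ht)) (.cons (V.zero ht) .nil)).mono (by simp [Tm.len])
  | succ s ih =>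
    intro ht hS
    simp only [Tm.len] at hS
    obtain ⟨h1, h2⟩ := V.succ s ht
    exact (r2 _ [1, _] (Cx.ok3 (V.okt _ ht) (V.okt _ h1) (X.ok_num (n := s.len) (by omega)))
      (.cons h2 (.cons (ih h1 (by omega)) .nil))).mono (by simp [Tm.len] <;> omega)
  | add a b iha ihb =>
    intro ht hS
    simp only [Tm.len] at hS
    obtain ⟨h1, h2, h3⟩ := V.add a b ht
    exact (r3 _ [1, _, _, 1] (Cx.ok6 (V.okt _ ht) (V.okt _ h1) (V.okt _ h2)
      (X.ok_num (n := a.len) (by omega)) (X.ok_num (n := b.len) (by omega))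
      (X.ok_num (n := a.len + b.len) (by omega)))
      (.cons h3 (.cons (iha h1 (by omega)) (.cons (ihb h2 (by omega))
        (.cons (hs _ _ _ rfl (by omega)) .nil))))).mono (by
          have := a.len_pos; have := b.len_pos; simp [Tm.len] <;> omega)
  | mul a b iha ihb =>
    intro ht hS
    simp only [Tm.len] at hS
    obtain ⟨h1, h2, h3⟩ := V.mul a b ht
    exact (r4 _ [1, _, _, 1] (Cx.ok6 (V.okt _ ht) (V.okt _ h1) (V.okt _ h2)
      (X.ok_num (n := a.len) (by omega)) (X.ok_num (n := b.len) (by omega))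
      (X.ok_num (n := a.len + b.len) (by omega)))
      (.cons h3 (.cons (iha h1 (by omega)) (.cons (ihb h2 (by omega))
        (.cons (hs _ _ _ rfl (by omega)) .nil))))).mono (by
          have := a.len_pos; have := b.len_pos; simp [Tm.len] <;> omega)

lemma ev_lnF : Ev fun X => ∀ (V : Nm X) (φ : Fm), V.F φ → φ.len + 1 ≤ X.S →
    X.E (3 * φ.len) (I.A 8 (V.f φ) (nT φ.len) o o) := by
  have r1 := ev_rule I [.n1 (x 0) 5 o] (.rl 8 (x 0) (nT 1) o o) (by simp [At.Wf, Al])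
    (fun e h => ln_bot h)
  have r2 := ev_rule I [.n2 (x 0) 8 (x 1) (x 2), .rl 8 (x 1) (x 3) o o, .rl 8 (x 2) (x 4) o o,
      .eq (x 5) (.add (x 3) (x 4))]
    (.rl 8 (x 0) (.succ (x 5)) o o) (by simp [At.Wf, Al])
    (fun e h h1 h2 h3 => ln_imp h h1 h2 h3)
  have r3 := fun (d : ℕ) (hd : d = 6 ∨ d = 7) =>
    ev_rule I [.n2 (x 0) d (x 1) (x 2), .rl 7 (x 1) (x 3) o o, .rl 7 (x 2) (x 4) o o,
      .eq (x 5) (.add (x 3) (x 4))]
      (.rl 8 (x 0) (.succ (x 5)) o o) (by simp [At.Wf, Al])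
      (fun e h h1 h2 h3 => ln_at hd h h1 h2 h3)
  have r5 := ev_rule I [.n2 (x 0) 9 (x 1) (x 2), .rl 8 (x 2) (x 3) o o,
      .eq (x 4) (.add (x 3) (x 1))]
    (.rl 8 (x 0) (.succ (.succ (x 4))) o o) (by simp [At.Wf, Al])
    (fun e h h1 h2 => ln_all h h1 h2)
  refine ((((ev_lnT I).and r1).and ((r2.and r5).and
    ((r3 6 (by omega)).and (r3 7 (by omega))))).and ev_sum).mono ?_
  rintro X ⟨⟨⟨hT, r1⟩, ⟨⟨r2, r5⟩, ⟨r3, r4⟩⟩⟩, hs⟩ V φ
  induction φ with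
  | bot =>
    intro ht hS
    exact (r1 _ [1] (Cx.ok1 (V.okf _ ht)) (.cons (V.bot ht) .nil)).mono (by simp [Fm.len])
  | eq a b =>
    intro ht hS
    simp only [Fm.len] at hS
    obtain ⟨h1, h2, h3⟩ := V.eq a b ht
    exact (r3 _ [1, _, _, 1] (Cx.ok6 (V.okf _ ht) (V.okt _ h1) (V.okt _ h2)
      (X.ok_num (n := a.len) (by omega)) (X.ok_num (n := b.len) (by omega))
      (X.ok_num (n := a.len + b.len) (by omega)))
      (.cons h3 (.cons (hT V a h1 (by omega)) (.cons (hT V b h2 (by omega))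
        (.cons (hs _ _ _ rfl (by omega)) .nil))))).mono (by
          have := a.len_pos; have := b.len_pos; simp [Fm.len] <;> omega)
  | le a b =>
    intro ht hS
    simp only [Fm.len] at hS
    obtain ⟨h1, h2, h3⟩ := V.le a b ht
    exact (r4 _ [1, _, _, 1] (Cx.ok6 (V.okf _ ht) (V.okt _ h1) (V.okt _ h2)
      (X.ok_num (n := a.len) (by omega)) (X.ok_num (n := b.len) (by omega))
      (X.ok_num (n := a.len + b.len) (by omega)))
      (.cons h3 (.cons (hT V a h1 (by omega)) (.cons (hT V b h2 (by omega))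
        (.cons (hs _ _ _ rfl (by omega)) .nil))))).mono (by
          have := a.len_pos; have := b.len_pos; simp [Fm.len] <;> omega)
  | imp a b iha ihb =>
    intro ht hS
    simp only [Fm.len] at hS
    obtain ⟨h1, h2, h3⟩ := V.imp a b ht
    exact (r2 _ [1, _, _, 1] (Cx.ok6 (V.okf _ ht) (V.okf _ h1) (V.okf _ h2)
      (X.ok_num (n := a.len) (by omega)) (X.ok_num (n := b.len) (by omega))
      (X.ok_num (n := a.len + b.len) (by omega)))
      (.cons h3 (.cons (iha h1 (by omega)) (.cons (ihb h2 (by omega))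
        (.cons (hs _ _ _ rfl (by omega)) .nil))))).mono (by
          have := a.len_pos; have := b.len_pos; simp [Fm.len] <;> omega)
  | all k b ih =>
    intro ht hS
    simp only [Fm.len] at hS
    obtain ⟨h1, h2, h3⟩ := V.all k b ht
    exact (r5 _ [1, _, 1] (Cx.ok5 (V.okf _ ht) h1 (V.okf _ h2)
      (X.ok_num (n := b.len) (by omega)) (X.ok_num (n := b.len + k) (by omega)))
      (.cons h3 (.cons (ih h2 (by omega)) (.cons (hs _ _ _ rfl (by omega)) .nil)))).mono (by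
          have := b.len_pos; simp [Fm.len] <;> omega)

/-! ### Names of lists -/

/-- Names of the ends of a list. -/
def LNm (X : Cx) (V : Nm X) (w : List Fm → Tm) : List Fm → Prop
  | [] => w [] = .zero
  | φ :: l => X.Ok (w (φ :: l)) ∧ X.E 1 (Fm.eq (w (φ :: l)) (ndT (V.f φ) (w l))) ∧ LNm X V w l

lemma LNm.ok {X : Cx} {V : Nm X} {w : List Fm → Tm} : ∀ {L : List Fm}, LNm X V w L → X.Ok (w L)
  | [], h => by
    have h' : w [] = .zero := h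
    rw [h']; exact X.ok_zero
  | _ :: _, h => h.1

lemma il_nil : IsL 0 := ⟨[], rfl⟩

lemma il_cons {y f l : ℕ} (h : y = nd f l) (h1 : IsF f) (h2 : IsL l) : IsL y := by
  obtain ⟨φ, rfl⟩ := h1
  obtain ⟨L, rfl⟩ := h2
  exact ⟨φ :: L, h⟩

lemma me_head {y f l : ℕ} (h : y = nd f l) (h1 : IsF f) (h2 : IsL l) : MeR y f := by
  obtain ⟨φ, rfl⟩ := h1
  obtain ⟨L, rfl⟩ := h2
  exact ⟨φ :: L, φ, h, rfl, List.mem_cons_self⟩

lemma me_tail {y f l g : ℕ} (h : y = nd f l) (h1 : IsF f) (h2 : MeR l g) : MeR y g := by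
  obtain ⟨φ, rfl⟩ := h1
  obtain ⟨L, ψ, rfl, rfl, h3⟩ := h2
  exact ⟨φ :: L, ψ, h, rfl, List.mem_cons_of_mem _ h3⟩

lemma pl_nil : PLR 0 0 := ⟨[], rfl, rfl⟩

lemma pl_cons {y f l n m s : ℕ} (h : y = nd f l) (h1 : LnF f n) (h2 : PLR l m) (hs : s = n + m) :
    PLR y s := by
  obtain ⟨φ, rfl, rfl⟩ := h1
  obtain ⟨L, rfl, rfl⟩ := h2
  exact ⟨φ :: L, h, by rw [hs, plen_cons]⟩

lemma pf_nil {a : ℕ} (h : IsL a) : PfR 0 a := by
  obtain ⟨A, rfl⟩ := h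
  exact ⟨[], A, rfl, rfl, trivial⟩

lemma pf_mem {y f l a : ℕ} (h : y = nd f l) (h1 : PfR l a) (h2 : MeR a f) : PfR y a := by
  obtain ⟨L, A, rfl, rfl, h3⟩ := h1
  obtain ⟨A', φ, e1, rfl, h4⟩ := h2
  obtain rfl := lc_inj e1
  exact ⟨φ :: L, A, h, rfl, h3, Or.inl h4⟩

lemma pf_ax {y f l a : ℕ} (h : y = nd f l) (h1 : PfR l a) (h2 : AxR f) : PfR y a := by
  obtain ⟨L, A, rfl, rfl, h3⟩ := h1
  obtain ⟨φ, rfl, h4⟩ := h2
  exact ⟨φ :: L, A, h, rfl, h3, Or.inr (Or.inl h4)⟩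

lemma pf_mp {y f l a g z : ℕ} (h : y = nd f l) (h1 : PfR l a) (h2 : MeR l g) (h3 : MeR l z)
    (h4 : z = nd 8 (nd g f)) : PfR y a := by
  obtain ⟨L, A, rfl, rfl, h5⟩ := h1
  obtain ⟨L', ψ, e1, rfl, h6⟩ := h2
  obtain rfl := lc_inj e1
  obtain ⟨L', χ, e2, e3, h7⟩ := h3
  obtain rfl := lc_inj e2
  obtain ⟨ψ', φ, rfl, e4, rfl⟩ := inv8 (h4.symm.trans e3)
  obtain rfl := fc_inj e4
  exact ⟨φ :: L, A, h, rfl, h5, Or.inr (Or.inr (Or.inl ⟨ψ, h6, h7⟩))⟩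

lemma pf_gen {y f l a g j : ℕ} (h : y = nd f l) (h1 : PfR l a) (h2 : MeR l g)
    (h4 : f = nd 9 (nd j g)) : PfR y a := by
  obtain ⟨L, A, rfl, rfl, h5⟩ := h1
  obtain ⟨L', ψ, e1, rfl, h6⟩ := h2
  obtain rfl := lc_inj e1
  subst h4
  exact ⟨.all j ψ :: L, A, h, rfl, h5, Or.inr (Or.inr (Or.inr ⟨j, ψ, h6, rfl⟩))⟩

/-- Cost of the facts about membership. -/
def cM (Λ N : ℕ) : ℕ := (2 * Λ + 2) * N + 1

lemma cM_le (Λ : ℕ) {n m : ℕ} (h : n + 1 ≤ m) : cM Λ n + (2 * Λ + 2) ≤ cM Λ m := by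
  unfold cM
  calc (2 * Λ + 2) * n + 1 + (2 * Λ + 2) = (2 * Λ + 2) * (n + 1) + 1 := by ring
    _ ≤ (2 * Λ + 2) * m + 1 := by gcongr

lemma cM_mono (Λ : ℕ) {n m : ℕ} (h : n ≤ m) : cM Λ n ≤ cM Λ m := by
  unfold cM; gcongr

lemma ev_isl : Ev fun X => ∀ (V : Nm X) (w : List Fm → Tm) (Λ : ℕ) (L : List Fm),
    LNm X V w L → (∀ ψ ∈ L, V.F ψ ∧ ψ.len ≤ Λ) → X.E (cM Λ L.length) (I.A 10 (w L) o o o) := by
  have r0 := ev_rule I [] (.rl 10 o o o o) (by simp [At.Wf, Al]) (fun e => il_nil)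
  have r1 := ev_rule I [.eq (x 0) (ndT (x 1) (x 2)), .rl 1 (x 1) o o o, .rl 10 (x 2) o o o]
    (.rl 10 (x 0) o o o) (by simp [At.Wf, Al]) (fun e h h1 h2 => by
      have h' : (x 0).val e = (ndT (x 1) (x 2)).val e := h
      rw [val_ndT] at h'
      exact il_cons h' h1 h2)
  refine ((r0.and r1).and (ev_isF I)).mono ?_
  rintro X ⟨⟨r0, r1⟩, hF⟩ V w Λ L
  induction L with
  | nil =>
    intro hL _
    have h' : w [] = .zero := hL
    rw [h']
    exact (r0 (tl []) [] (X.ok_tl (by simp)) .nil).mono (by simp [cM])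
  | cons φ l ih =>
    intro hL hV
    obtain ⟨h1, h2, h3⟩ := hL
    obtain ⟨Fφ, lφ⟩ := hV φ List.mem_cons_self
    have h4 := ih h3 fun ψ hψ => hV ψ (List.mem_cons_of_mem _ hψ)
    have h5 := cM_le Λ (n := l.length) (m := (φ :: l).length) le_rfl
    exact (r1 (tl [w (φ :: l), V.f φ, w l]) [1, _, _] (Cx.ok3 h1 (V.okf _ Fφ) h3.ok)
      (.cons h2 (.cons (hF V φ Fφ) (.cons h4 .nil)))).mono (by
        simp only [List.sum_cons, List.sum_nil]; omega)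

lemma ev_mel : Ev fun X => ∀ (V : Nm X) (w : List Fm → Tm) (Λ : ℕ) (L : List Fm),
    LNm X V w L → (∀ ψ ∈ L, V.F ψ ∧ ψ.len ≤ Λ) → ∀ ψ ∈ L,
      X.E (cM Λ L.length) (I.A 12 (w L) (V.f ψ) o o) := by
  have r0 := ev_rule I [.eq (x 0) (ndT (x 1) (x 2)), .rl 1 (x 1) o o o, .rl 10 (x 2) o o o]
    (.rl 12 (x 0) (x 1) o o) (by simp [At.Wf, Al]) (fun e h h1 h2 => by
      have h' : (x 0).val e = (ndT (x 1) (x 2)).val e := h
      rw [val_ndT] at h'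
      exact me_head h' h1 h2)
  have r1 := ev_rule I [.eq (x 0) (ndT (x 1) (x 2)), .rl 1 (x 1) o o o, .rl 12 (x 2) (x 3) o o]
    (.rl 12 (x 0) (x 3) o o) (by simp [At.Wf, Al]) (fun e h h1 h2 => by
      have h' : (x 0).val e = (ndT (x 1) (x 2)).val e := h
      rw [val_ndT] at h'
      exact me_tail h' h1 h2)
  refine ((r0.and r1).and ((ev_isF I).and (ev_isl I))).mono ?_
  rintro X ⟨⟨r0, r1⟩, ⟨hF, hl⟩⟩ V w Λ L
  induction L with
  | nil => intro _ _ ψ hψ; simp at hψ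
  | cons φ l ih =>
    intro hL hV ψ hψ
    obtain ⟨h1, h2, h3⟩ := hL
    obtain ⟨Fφ, lφ⟩ := hV φ List.mem_cons_self
    have hV' : ∀ ψ ∈ l, V.F ψ ∧ ψ.len ≤ Λ := fun ψ hψ => hV ψ (List.mem_cons_of_mem _ hψ)
    have h5 := cM_le Λ (n := l.length) (m := (φ :: l).length) le_rfl
    rcases List.mem_cons.mp hψ with rfl | hψ
    · exact (r0 (tl [w (ψ :: l), V.f ψ, w l]) [1, _, _] (Cx.ok3 h1 (V.okf _ Fφ) h3.ok)
        (.cons h2 (.cons (hF V ψ Fφ) (.cons (hl V w Λ l h3 hV') .nil)))).mono (by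
          simp only [List.sum_cons, List.sum_nil]; omega)
    · exact (r1 (tl [w (φ :: l), V.f φ, w l, V.f ψ]) [1, _, _]
        (Cx.ok4 h1 (V.okf _ Fφ) h3.ok (V.okf _ (hV' ψ hψ).1))
        (.cons h2 (.cons (hF V φ Fφ) (.cons (ih h3 hV' ψ hψ) .nil)))).mono (by
          simp only [List.sum_cons, List.sum_nil]; omega)

lemma ev_pll : Ev fun X => ∀ (V : Nm X) (w : List Fm → Tm) (Λ : ℕ) (L : List Fm),
    LNm X V w L → (∀ ψ ∈ L, V.F ψ ∧ ψ.len ≤ Λ) → plen L + 1 ≤ X.S →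
      X.E ((3 * Λ + 3) * L.length + 1) (I.A 14 (w L) (nT (plen L)) o o) := by
  have r0 := ev_rule I [] (.rl 14 o o o o) (by simp [At.Wf, Al]) (fun e => pl_nil)
  have r1 := ev_rule I [.eq (x 0) (ndT (x 1) (x 2)), .rl 8 (x 1) (x 3) o o,
      .rl 14 (x 2) (x 4) o o, .eq (x 5) (.add (x 3) (x 4))]
    (.rl 14 (x 0) (x 5) o o) (by simp [At.Wf, Al]) (fun e h h1 h2 h3 => by
      have h' : (x 0).val e = (ndT (x 1) (x 2)).val e := h
      rw [val_ndT] at h'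
      exact pl_cons h' h1 h2 h3)
  refine ((r0.and r1).and ((ev_lnF I).and ev_sum)).mono ?_
  rintro X ⟨⟨r0, r1⟩, ⟨hF, hs⟩⟩ V w Λ L
  induction L with
  | nil =>
    intro hL _ _
    have h' : w [] = .zero := hL
    rw [h', plen_nil]
    exact (r0 (tl []) [] (X.ok_tl (by simp)) .nil).mono (by simp)
  | cons φ l ih =>
    intro hL hV hS
    obtain ⟨h1, h2, h3⟩ := hL
    obtain ⟨Fφ, lφ⟩ := hV φ List.mem_cons_self
    rw [plen_cons] at hS ⊢
    have h4 := ih h3 (fun ψ hψ => hV ψ (List.mem_cons_of_mem _ hψ)) (by omega)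
    exact (r1 (tl [w (φ :: l), V.f φ, w l, nT φ.len, nT (plen l), nT (φ.len + plen l)])
      [1, _, _, 1] (Cx.ok6 h1 (V.okf _ Fφ) h3.ok (X.ok_num (n := φ.len) (by omega))
        (X.ok_num (n := plen l) (by omega)) (X.ok_num (n := φ.len + plen l) (by omega)))
      (.cons h2 (.cons (hF V φ Fφ (by omega)) (.cons h4 (.cons (hs _ _ _ rfl (by omega))
        .nil))))).mono (by
        simp only [List.sum_cons, List.sum_nil, List.length_cons]
        have : (3 * Λ + 3) * (l.length + 1) = (3 * Λ + 3) * l.length + (3 * Λ + 3) := by ring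
        omega)

/-- Cost of one line of a proof. -/
def cL (Λ K N : ℕ) : ℕ := cs2 Λ + K + 2 * cM Λ N + 4

lemma cs2_mono {a b : ℕ} (h : a ≤ b) : cs2 a ≤ cs2 b := by
  unfold cs2; gcongr

/-- Verification of a proof. -/
lemma ev_pfl : Ev fun X => ∀ (V : Nm X) (w : List Fm → Tm) (a : Tm) (A : List Fm) (Λ K N : ℕ)
    (L : List Fm), X.Ok a → V.T .zero → LNm X V w L → IsProof A L →
    (∀ ψ ∈ L, V.F ψ ∧ ψ.len ≤ Λ) → L.length ≤ N → X.E K (I.A 10 a o o o) →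
    (∀ ψ ∈ A, V.F ψ → X.E K (I.A 12 a (V.f ψ) o o)) →
      X.E (cL Λ K N * L.length + K + 1) (I.A 13 (w L) a o o) := by
  have r0 := ev_rule I [.rl 10 (x 0) o o o] (.rl 13 o (x 0) o o) (by simp [At.Wf, Al])
    (fun e h => pf_nil h)
  have r1 := ev_rule I [.eq (x 0) (ndT (x 1) (x 2)), .rl 13 (x 2) (x 3) o o,
      .rl 12 (x 3) (x 1) o o]
    (.rl 13 (x 0) (x 3) o o) (by simp [At.Wf, Al]) (fun e h h1 h2 => by
      have h' : (x 0).val e = (ndT (x 1) (x 2)).val e := h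
      rw [val_ndT] at h'
      exact pf_mem h' h1 h2)
  have r2 := ev_rule I [.eq (x 0) (ndT (x 1) (x 2)), .rl 13 (x 2) (x 3) o o,
      .rl 9 (x 1) o o o]
    (.rl 13 (x 0) (x 3) o o) (by simp [At.Wf, Al]) (fun e h h1 h2 => by
      have h' : (x 0).val e = (ndT (x 1) (x 2)).val e := h
      rw [val_ndT] at h'
      exact pf_ax h' h1 h2)
  have r3 := ev_rule I [.eq (x 0) (ndT (x 1) (x 2)), .rl 13 (x 2) (x 3) o o,
      .rl 12 (x 2) (x 4) o o, .rl 12 (x 2) (x 5) o o, .n2 (x 5) 8 (x 4) (x 1)]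
    (.rl 13 (x 0) (x 3) o o) (by simp [At.Wf, Al]) (fun e h h1 h2 h3 h4 => by
      have h' : (x 0).val e = (ndT (x 1) (x 2)).val e := h
      rw [val_ndT] at h'
      exact pf_mp h' h1 h2 h3 h4)
  have r4 := ev_rule I [.eq (x 0) (ndT (x 1) (x 2)), .rl 13 (x 2) (x 3) o o,
      .rl 12 (x 2) (x 4) o o, .n2 (x 1) 9 (x 5) (x 4)]
    (.rl 13 (x 0) (x 3) o o) (by simp [At.Wf, Al]) (fun e h h1 h2 h3 => by
      have h' : (x 0).val e = (ndT (x 1) (x 2)).val e := h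
      rw [val_ndT] at h'
      exact pf_gen h' h1 h2 h3)
  refine (((r0.and r1).and ((r2.and r3).and r4)).and ((ev_axr I).and (ev_mel I))).mono ?_
  rintro X ⟨⟨⟨r0, r1⟩, ⟨⟨r2, r3⟩, r4⟩⟩, ⟨hax, hme⟩⟩ V w a A Λ K N L ha hz
  induction L with
  | nil =>
    intro hL _ _ _ h10 _
    have h' : w [] = .zero := hL
    rw [h']
    exact (r0 (tl [a]) [K] (Cx.ok1 ha) (.cons h10 .nil)).mono (by simp)
  | cons φ l ih =>
    intro hL hp hV hN h10 hA
    obtain ⟨h1, h2, h3⟩ := hL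
    obtain ⟨Fφ, lφ⟩ := hV φ List.mem_cons_self
    have hV' : ∀ ψ ∈ l, V.F ψ ∧ ψ.len ≤ Λ := fun ψ hψ => hV ψ (List.mem_cons_of_mem _ hψ)
    rw [List.length_cons] at hN ⊢
    have h4 := ih h3 hp.1 hV' (by omega) h10 hA
    have h5 : cL Λ K N * (l.length + 1) = cL Λ K N * l.length + cL Λ K N := by ring
    have h6 : cL Λ K N = cs2 Λ + K + 2 * cM Λ N + 4 := rfl
    have h7 := cM_mono Λ (n := l.length) (m := N) (by omega)
    rcases hp.2 with h | h | ⟨ψ, h8, h9⟩ | ⟨j, ψ, h8, h9⟩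
    · exact (r1 (tl [w (φ :: l), V.f φ, w l, a]) [1, _, _] (Cx.ok4 h1 (V.okf _ Fφ) h3.ok ha)
        (.cons h2 (.cons h4 (.cons (hA φ h Fφ) .nil)))).mono (by
          simp only [List.sum_cons, List.sum_nil]; omega)
    · have h8 := cs2_mono lφ
      exact (r2 (tl [w (φ :: l), V.f φ, w l, a]) [1, _, _] (Cx.ok4 h1 (V.okf _ Fφ) h3.ok ha)
        (.cons h2 (.cons h4 (.cons (hax V φ hz Fφ h) .nil)))).mono (by
          simp only [List.sum_cons, List.sum_nil]; omega)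
    · obtain ⟨F1, _⟩ := hV' ψ h8
      obtain ⟨F2, _⟩ := hV' _ h9
      obtain ⟨_, _, h10⟩ := V.imp _ _ F2
      exact (r3 (tl [w (φ :: l), V.f φ, w l, a, V.f ψ, V.f (imp ψ φ)]) [1, _, _, _, 1]
        (Cx.ok6 h1 (V.okf _ Fφ) h3.ok ha (V.okf _ F1) (V.okf _ F2))
        (.cons h2 (.cons h4 (.cons (hme V w Λ l h3 hV' ψ h8) (.cons (hme V w Λ l h3 hV' _ h9)
          (.cons h10 .nil)))))).mono (by
          simp only [List.sum_cons, List.sum_nil]; omega)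
    · subst h9
      obtain ⟨F1, _⟩ := hV' ψ h8
      obtain ⟨hj, _, h10⟩ := V.all _ _ Fφ
      exact (r4 (tl [w (all j ψ :: l), V.f (all j ψ), w l, a, V.f ψ, nT j]) [1, _, _, 1]
        (Cx.ok6 h1 (V.okf _ Fφ) h3.ok ha (V.okf _ F1) hj)
        (.cons h2 (.cons h4 (.cons (hme V w Λ l h3 hV' ψ h8) (.cons h10 .nil))))).mono (by
          simp only [List.sum_cons, List.sum_nil]; omega)

end Helper31Con.Amp
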